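import Mathlib

set_option autoImplicit false

/-! # Definitions for the undecidability of `PCP(4)`

Binary tag systems `b ↦ b`, `c ↦ u` (`false` is `b`, `true` is `c`), the four pairs of words simulating them,
the machine of events, tag systems given by tables, and one-register machines. -/

namespace Pool.Agent.Helper231_PCP

/-- the morphism with the images `h` of the letters -/
def ext {n : ℕ} (h : Fin n → List ℕ) (w : List (Fin n)) : List ℕ := w.flatMap h

/-- positive instances of `PCP(n)` -/
def PCPpos {n : ℕ} (I : (Fin n → List ℕ) × (Fin n → List ℕ)) : Prop :=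
  ∃ w : List (Fin n), w ≠ [] ∧ ext I.1 w = ext I.2 w

/-! ## binary tag systems and the four pairs -/

/-- productions of the binary tag system -/
def prd (u : List Bool) (x : Bool) : List Bool := if x then u else [false]

/-- one step of the binary tag system with deletion number `be`: append first, then delete -/
def tstep (be : ℕ) (u : List Bool) : List Bool → List Bool
  | [] => []
  | x :: V => ((x :: V) ++ prd u x).drop be

/-- code of a symbol -/
def cd (x : Bool) : ℕ := if x then 2 else 1

/-- each symbol followed by `k` zeros -/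
def enc (k : ℕ) (s : List Bool) : List ℕ := s.flatMap (fun x => cd x :: List.replicate k 0)

/-- the symbols separated by `k` zeros -/
def encm (k : ℕ) (s : List Bool) : List ℕ :=
  (s.flatMap (fun x => List.replicate k 0 ++ [cd x])).drop k

/-- first morphism -/
def gI (k : ℕ) : Fin 4 → List ℕ :=
  ![1 :: List.replicate k 0, 2 :: List.replicate k 0, 1 :: List.replicate k 0,
    2 :: List.replicate k 0]

/-- second morphism -/
def hI (k : ℕ) (u : List Bool) : Fin 4 → List ℕ := ![[0], [0], [1], encm k u]

/-! ## the machine of events -/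

/-- children of the block `u` placed at position `I` -/
def ch (be : ℕ) (u : List Bool) (I : ℕ) : List ℕ :=
  ((List.range u.length).filter (fun q => u.getD q false && decide ((I + q) % be = 0))).map
    (fun q => (I + q) / be)

/-- one step of the machine of events -/
def es (be kap : ℕ) (u : List Bool) : ℕ × List ℕ → ℕ × List ℕ
  | (i, []) => (i, [])
  | (i, t :: L) => (i + 1, L ++ ch be u (t + kap * i))

/-! ## tag systems given by tables -/

/-- production of the letter `l` -/
def al (tb : List (List ℕ)) (l : ℕ) : List ℕ := tb.getD l []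

/-- one letter-step of the tag system with deletion number `P` and table `tb` -/
def ls (P : ℕ) (tb : List (List ℕ)) : ℕ × List ℕ → ℕ × List ℕ
  | (nu, []) => (nu, [])
  | (nu, l :: W) => ((nu + 1) % P, if nu = 0 then W ++ al tb l else W)

/-- the letter read in mode `0`, if any, has a nonempty production -/
def Good (tb : List (List ℕ)) (s : ℕ × List ℕ) : Prop :=
  ∀ l W, s = (0, l :: W) → al tb l ≠ []

/-- the run from `(0, w0)` reaches dead letters only -/
def Dies (P : ℕ) (tb : List (List ℕ)) (w0 : List ℕ) : Prop :=
  ∃ n, (∀ m < n, Good tb ((ls P tb)^[m] (0, w0))) ∧ ∀ l ∈ ((ls P tb)^[n] (0, w0)).2, al tb l = []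

/-- the run from `(0, w0)` goes on for ever -/
def Lives (P : ℕ) (tb : List (List ℕ)) (w0 : List ℕ) : Prop :=
  ∀ n, Good tb ((ls P tb)^[n] (0, w0)) ∧ ((ls P tb)^[n] (0, w0)).2 ≠ []

/-- colours -/
def co (cb : List ℕ) (l : ℕ) : ℕ := cb.getD l 0

/-- admissible tables with colours -/
structure Adm (tb : List (List ℕ)) (cb : List ℕ) : Prop where
  hr : ∀ w ∈ tb, ∀ l ∈ w, l < tb.length
  h1 : ∀ l, co cb l ≤ 1
  hc : ∀ l, ∀ l' ∈ al tb l, co cb l' = 1 - co cb l

section params

variable (P K : ℕ) (tb : List (List ℕ)) (cb w0 : List ℕ)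

def b1 : ℕ := (tb.length + 2) * K + 4
/-- deletion number of the binary tag system -/
def be : ℕ := P * b1 K tb
def kk : ℕ := be P K tb - 1
def DD : ℕ := P * K + 1
def CC : ℕ := DD P K * b1 K tb
def tau (c : ℕ) : ℕ := 3 * (K + 1) * be P K tb * kk P K tb + c * be P K tb
def xx (n lam : ℕ) : ℕ := kk P K tb * ((be P K tb + 1) * n + lam)
def mu : ℕ := tau P K tb 1 + xx P K tb ((K + 1) * be P K tb) (be P K tb)
def kap : ℕ := kk P K tb * (be P K tb * mu P K tb + kk P K tb)
def lab (l j : ℕ) : ℕ := 3 + l * K + j

/-- label of the `n`-th event of the letter `l` -/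
def cl (l n : ℕ) : ℕ :=
  if n % be P K tb = 0 ∧ n / be P K tb < (al tb l).length then lab K l (n / be P K tb) else 1

/-- label of the `n`-th event of the start cluster -/
def cs (n : ℕ) : ℕ :=
  if n % be P K tb = 0 ∧ 1 ≤ n / be P K tb ∧ n / be P K tb ≤ w0.length then
    lab K tb.length (n / be P K tb) else 1

/-- the events of the letter `l` of length `L` at time `a` -/
def clu (l L a : ℕ) : List ℕ :=
  (List.range (CC P K tb - L)).map
    (fun n => tau P K tb (co cb l) + kap P K tb * a + xx P K tb n (cl P K tb l n))

/-- the start cluster -/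
def scl : List ℕ :=
  (List.range ((w0.length + 1) * be P K tb - 2)).map
    (fun n => tau P K tb 1 + xx P K tb (n + 1) (cs P K tb w0 (n + 1)))

/-- length of the `j`-th letter produced by `l` -/
def Ln (l j : ℕ) : ℕ := if j + 1 < (al tb l).length then 1 else DD P K - (al tb l).length + 1

def row (l j : ℕ) : List ℕ :=
  (List.range (CC P K tb - Ln P K tb l j)).map
    (fun n => be P K tb * (tau P K tb (co cb ((al tb l).getD j 0)) +
        xx P K tb n (cl P K tb ((al tb l).getD j 0) n)) -
      (tau P K tb (co cb l) + xx P K tb (j * be P K tb) (lab K l j)))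

def rowS (j : ℕ) : List ℕ :=
  (List.range (CC P K tb - 1)).map
    (fun n => be P K tb * (tau P K tb (co cb (w0.getD j 0)) +
        xx P K tb n (cl P K tb (w0.getD j 0) n)) -
      (tau P K tb 1 + xx P K tb ((j + 1) * be P K tb) (lab K tb.length (j + 1))))

/-- the offsets of the symbols `c` in `u` -/
def Ql : List ℕ :=
  0 :: ((scl P K tb w0).map (fun t => be P K tb * t) ++
    ((List.range tb.length).flatMap
      (fun l => (List.range (al tb l).length).flatMap (fun j => row P K tb cb l j)) ++
    (List.range w0.length).flatMap (fun j => rowS P K tb cb w0 j)))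

/-- the word `u` -/
def uu : List Bool := (List.range (kap P K tb + 1)).map (fun q => decide (q ∈ Ql P K tb cb w0))

end params

/-! ## one-register machines -/

/-- In state `q`, with `n = P y + ρ` in the register, the machine goes to `nx q ρ` (`none`: stop) with
`mu q ρ * y + ad q ρ` in the register. -/
structure OM (Q : Type) where
  P : ℕ
  nx : Q → ℕ → Option Q
  mu : Q → ℕ → ℕ
  ad : Q → ℕ → ℕ

/-- the machine stops -/
inductive OM.Halts {Q : Type} (M : OM Q) : Option Q → ℕ → Prop
  | stop (n : ℕ) : M.Halts none n
  | step (q : Q) (n : ℕ) :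
      M.Halts (M.nx q (n % M.P)) (M.mu q (n % M.P) * (n / M.P) + M.ad q (n % M.P)) →
      M.Halts (some q) n

end Pool.Agent.Helper231_PCP
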