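import Mathlib
import Pool.Agent.Helper231_PCP.Defs

set_option autoImplicit false

/-! More definitions: block words, tag systems over arbitrary alphabets, letters simulating a
one-register machine. -/

namespace Pool.Agent.Helper231_PCP

/-- the word read by a list of blocks (lead symbol, other symbols) -/
def sB (B : List (Bool × List Bool)) : List Bool := B.flatMap (fun p => p.1 :: p.2)

/-- the word produced by a list of blocks -/
def pB (u : List Bool) (B : List (Bool × List Bool)) : List Bool := B.flatMap (fun p => prd u p.1)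

/-- one letter-step of a tag system with deletion number `P` and productions `α` -/
def lsX {X : Type} (P : ℕ) (α : X → List X) : ℕ × List X → ℕ × List X
  | (nu, []) => (nu, [])
  | (nu, l :: W) => ((nu + 1) % P, if nu = 0 then W ++ α l else W)

/-- the letter read in mode `0`, if any, has a nonempty production -/
def GoodX {X : Type} (α : X → List X) (s : ℕ × List X) : Prop := ∀ l W, s = (0, l :: W) → α l ≠ []

/-- the run from `(0, w0)` reaches dead letters only -/
def DiesX {X : Type} (P : ℕ) (α : X → List X) (w0 : List X) : Prop :=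
  ∃ n, (∀ m < n, GoodX α ((lsX P α)^[m] (0, w0))) ∧ ∀ l ∈ ((lsX P α)^[n] (0, w0)).2, α l = []

/-- the run from `(0, w0)` goes on for ever -/
def LivesX {X : Type} (P : ℕ) (α : X → List X) (w0 : List X) : Prop :=
  ∀ n, GoodX α ((lsX P α)^[n] (0, w0)) ∧ ((lsX P α)^[n] (0, w0)).2 ≠ []

/-- letters -/
inductive Lt (Q : Type) (P : ℕ) : Type
  | x : Lt Q P
  | A (o : Option Q) : Lt Q P
  | a (o : Option Q) : Lt Q P
  | B (q : Q) (i : Fin P) : Lt Q P
  | b (q : Q) (i : Fin P) : Lt Q P

/-- productions -/
def alp {Q : Type} (M : OM Q) : Lt Q M.P → List (Lt Q M.P)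
  | .x => []
  | .A none => []
  | .a none => []
  | .A (some q) => List.ofFn (fun i => Lt.B q i)
  | .a (some q) => List.ofFn (fun i => Lt.b q i)
  | .B q i => List.replicate i Lt.x ++ Lt.A (M.nx q (M.P - 1 - i)) ::
      List.replicate (M.ad q (M.P - 1 - i)) (Lt.a (M.nx q (M.P - 1 - i)))
  | .b q i => List.replicate (M.mu q (M.P - 1 - i)) (Lt.a (M.nx q (M.P - 1 - i)))

end Pool.Agent.Helper231_PCP
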