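import Mathlib
import Pool.Agent.Helper231_PCP.Defs
import Pool.Agent.Helper231_PCP.Defs2

set_option autoImplicit false

/-! The letter machine simulates one-register machines. -/

namespace Pool.Agent.Helper231_PCP

section D1aux

variable {X : Type} {P : ℕ} {α : X → List X}

/-- `k` steps, all good -/
def D1Run (P : ℕ) (α : X → List X) (k : ℕ) (s s' : ℕ × List X) : Prop :=
  (lsX P α)^[k] s = s' ∧ ∀ m < k, GoodX α ((lsX P α)^[m] s)

theorem D1Run.refl (s : ℕ × List X) : D1Run P α 0 s s := ⟨rfl, by simp⟩

theorem D1Run.trans {k l : ℕ} {s s' s'' : ℕ × List X} (h1 : D1Run P α k s s')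
    (h2 : D1Run P α l s' s'') : D1Run P α (k + l) s s'' := by
  refine ⟨by rw [add_comm, Function.iterate_add_apply, h1.1, h2.1], fun m hm => ?_⟩
  rcases lt_or_ge m k with h | h
  · exact h1.2 m h
  · obtain ⟨t, rfl⟩ := Nat.exists_eq_add_of_le h
    rw [add_comm, Function.iterate_add_apply, h1.1]
    exact h2.2 t (by omega)

theorem D1Run.one {s : ℕ × List X} (h : GoodX α s) : D1Run P α 1 s (lsX P α s) := by
  refine ⟨rfl, fun m hm => ?_⟩
  obtain rfl : m = 0 := by omega
  exact h

/-- a letter read in a nonzero mode -/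
theorem D1_pass {nu : ℕ} (hnu : nu ≠ 0) (l : X) (W : List X) :
    D1Run P α 1 (nu, l :: W) ((nu + 1) % P, W) := by
  have h := D1Run.one (P := P) (α := α) (s := (nu, l :: W)) (by
    intro l' W' h
    exact absurd (Prod.ext_iff.1 h).1 hnu)
  simpa [lsX, hnu] using h

/-- a letter read in mode zero -/
theorem D1_read (hP : 2 ≤ P) {l : X} (hl : α l ≠ []) (W : List X) :
    D1Run P α 1 (0, l :: W) (1, W ++ α l) := by
  have h := D1Run.one (P := P) (α := α) (s := (0, l :: W)) (by
    intro l' W' h
    have := (List.cons.inj (Prod.ext_iff.1 h).2).1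
    rw [← this]
    exact hl)
  have h1 : (0 + 1) % P = 1 := Nat.mod_eq_of_lt (by omega)
  simpa [lsX, h1] using h

/-- skipping letters -/
theorem D1_skip (w : List X) : ∀ (nu : ℕ) (V : List X), 0 < nu → nu < P → nu + w.length ≤ P →
    D1Run P α w.length (nu, w ++ V) ((nu + w.length) % P, V) := by
  induction w with
  | nil =>
    intro nu V h0 h1 _
    have := D1Run.refl (P := P) (α := α) (nu, V)
    simpa [Nat.mod_eq_of_lt h1] using this
  | cons l w ih =>
    intro nu V h0 h1 h2
    have hs := D1_pass (P := P) (α := α) h0.ne' l (w ++ V)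
    rw [List.length_cons] at h2 ⊢
    rcases w with - | ⟨l', w'⟩
    · simpa using hs
    · rw [List.length_cons] at h2
      have h3 : (nu + 1) % P = nu + 1 := Nat.mod_eq_of_lt (by omega)
      rw [h3] at hs
      have := hs.trans (ih (nu + 1) V (by omega) (by omega) (by rw [List.length_cons]; omega))
      have e : 1 + (l' :: w').length = (l' :: w').length + 1 := by omega
      have e2 : nu + 1 + (l' :: w').length = nu + ((l' :: w').length + 1) := by omega
      rw [e, e2] at this
      exact this

/-- reading a block of equal letters from mode one -/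
theorem D1_block (hP : 2 ≤ P) {c : X} (hc : α c ≠ []) (n : ℕ) : ∀ V : List X,
    D1Run P α n (1, List.replicate n c ++ V)
      ((1 + n) % P, V ++ (List.replicate (n / P) (α c)).flatten) := by
  induction n with
  | zero =>
    intro V
    have := D1Run.refl (P := P) (α := α) (1, V)
    simpa [Nat.mod_eq_of_lt (show 1 < P by omega)] using this
  | succ n ih =>
    intro V
    have h := ih (c :: V)
    have e1 : List.replicate (n + 1) c ++ V = List.replicate n c ++ c :: V := by
      rw [List.replicate_succ', List.append_assoc]; rfl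
    rw [e1]
    refine h.trans ?_
    rw [List.cons_append]
    by_cases h0 : (1 + n) % P = 0
    · have hdiv : (n + 1) / P = n / P + 1 := by
        rw [Nat.succ_div, if_pos (Nat.dvd_of_mod_eq_zero (by rw [add_comm]; exact h0))]
      have hmod : (1 + (n + 1)) % P = 1 := by
        rw [show 1 + (n + 1) = (1 + n) + 1 by omega, Nat.add_mod, h0, Nat.zero_add, Nat.mod_mod,
          Nat.mod_eq_of_lt (by omega)]
      rw [h0, hmod, hdiv]
      have := D1_read hP hc (V ++ (List.replicate (n / P) (α c)).flatten)
      rw [List.append_assoc] at this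
      rw [List.replicate_succ', List.flatten_append]
      simpa using this
    · have hdiv : (n + 1) / P = n / P := by
        rw [Nat.succ_div, if_neg, add_zero]
        intro h
        exact h0 (by rw [add_comm]; exact Nat.mod_eq_zero_of_dvd h)
      have hmod : (1 + (n + 1)) % P = ((1 + n) % P + 1) % P := by
        rw [Nat.mod_add_mod]; congr 1
      rw [hmod, hdiv]
      exact D1_pass h0 _ _

end D1aux

section D1mach

variable {Q : Type} (M : OM Q)

/-- the block appended by `a (some q)` -/
abbrev D1bs (q : Q) : List (Lt Q M.P) := List.ofFn (fun i => Lt.b q i)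

theorem D1_loop (hP : 2 ≤ M.P) (hm : ∀ q r, 0 < M.mu q r) (q : Q) (i : ℕ) (hi : i < M.P) (y : ℕ) :
    ∀ D V : List (Lt Q M.P), D.length = M.P - 1 - i → ∃ (D' : List (Lt Q M.P)) (k : ℕ),
      D'.length = M.P - 1 - i ∧
      D1Run M.P (alp M) k (1, D ++ ((List.replicate y (D1bs M q)).flatten ++ V))
        (1, D' ++ (V ++ List.replicate (M.mu q (M.P - 1 - i) * y)
          (Lt.a (M.nx q (M.P - 1 - i))))) := by
  induction y with
  | zero =>
    intro D V hD
    refine ⟨D, 0, hD, ?_⟩
    simpa using D1Run.refl _
  | succ y ih =>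
    intro D V hD
    have hlen : (D1bs M q).length = M.P := List.length_ofFn
    have hsplit : D1bs M q = (D1bs M q).take i ++ (Lt.b q ⟨i, hi⟩ :: (D1bs M q).drop (i + 1)) := by
      conv_lhs => rw [← List.take_append_drop i (D1bs M q)]
      rw [List.drop_eq_getElem_cons (by rw [hlen]; exact hi)]
      congr 2
      simp
    have hD2 : ((D1bs M q).drop (i + 1)).length = M.P - 1 - i := by
      rw [List.length_drop, hlen]; omega
    obtain ⟨D', k, hD', hrun⟩ := ih ((D1bs M q).drop (i + 1))
      (V ++ List.replicate (M.mu q (M.P - 1 - i)) (Lt.a (M.nx q (M.P - 1 - i)))) hD2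
    have htl : (D ++ (D1bs M q).take i).length = M.P - 1 := by
      rw [List.length_append, hD, List.length_take, hlen]
      omega
    have h1 := D1_skip (P := M.P) (α := alp M) (D ++ (D1bs M q).take i) 1
      (Lt.b q ⟨i, hi⟩ :: ((D1bs M q).drop (i + 1) ++
        ((List.replicate y (D1bs M q)).flatten ++ V))) one_pos (by omega) (by rw [htl]; omega)
    have hmod : (1 + (D ++ (D1bs M q).take i).length) % M.P = 0 := by
      rw [htl, show 1 + (M.P - 1) = M.P by omega, Nat.mod_self]
    rw [hmod] at h1
    have hne : alp M (Lt.b q ⟨i, hi⟩) ≠ [] := by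
      show List.replicate (M.mu q (M.P - 1 - i)) _ ≠ []
      intro h
      have := congrArg List.length h
      rw [List.length_replicate] at this
      exact (hm _ _).ne' this
    have h2 := D1_read (P := M.P) (α := alp M) hP hne ((D1bs M q).drop (i + 1) ++
        ((List.replicate y (D1bs M q)).flatten ++ V))
    refine ⟨D', (D ++ (D1bs M q).take i).length + 1 + k, hD', ?_⟩
    have e1 : D ++ ((List.replicate (y + 1) (D1bs M q)).flatten ++ V) =
        (D ++ (D1bs M q).take i) ++ (Lt.b q ⟨i, hi⟩ :: ((D1bs M q).drop (i + 1) ++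
        ((List.replicate y (D1bs M q)).flatten ++ V))) := by
      rw [List.replicate_succ, List.flatten_cons]
      generalize (List.replicate y (D1bs M q)).flatten = R
      conv_lhs => rw [hsplit]
      simp only [List.append_assoc, List.cons_append]
    have e2 : (D1bs M q).drop (i + 1) ++ ((List.replicate y (D1bs M q)).flatten ++ V) ++
        alp M (Lt.b q ⟨i, hi⟩) = (D1bs M q).drop (i + 1) ++
        ((List.replicate y (D1bs M q)).flatten ++
        (V ++ List.replicate (M.mu q (M.P - 1 - i)) (Lt.a (M.nx q (M.P - 1 - i))))) := by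
      simp only [List.append_assoc]
      rfl
    have e3 : D' ++ (V ++ List.replicate (M.mu q (M.P - 1 - i)) (Lt.a (M.nx q (M.P - 1 - i))) ++
        List.replicate (M.mu q (M.P - 1 - i) * y) (Lt.a (M.nx q (M.P - 1 - i)))) =
        D' ++ (V ++ List.replicate (M.mu q (M.P - 1 - i) * (y + 1))
          (Lt.a (M.nx q (M.P - 1 - i)))) := by
      rw [List.append_assoc, List.replicate_append_replicate, Nat.mul_succ, add_comm]
    rw [e1]
    rw [e2] at h2
    rw [e3] at hrun
    exact (h1.trans h2).trans hrun

/-- one macro step -/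
theorem D1_macro (hP : 2 ≤ M.P) (hm : ∀ q r, 0 < M.mu q r) (q : Q) (n : ℕ) :
    ∃ k, 1 ≤ k ∧ D1Run M.P (alp M) k (0, Lt.A (some q) :: List.replicate n (Lt.a (some q)))
      (0, Lt.A (M.nx q (n % M.P)) ::
        List.replicate (M.mu q (n % M.P) * (n / M.P) + M.ad q (n % M.P))
          (Lt.a (M.nx q (n % M.P)))) := by
  have hρ : n % M.P < M.P := Nat.mod_lt _ (by omega)
  obtain ⟨i, hi⟩ : ∃ i, i = M.P - 1 - n % M.P := ⟨_, rfl⟩
  have hiP : i < M.P := by omega
  have hρi : n % M.P = M.P - 1 - i := by omega
  have hBlen : (List.ofFn (fun i => Lt.B q i) : List (Lt Q M.P)).length = M.P := List.length_ofFn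
  have hneA : alp M (Lt.A (some q)) ≠ [] := by
    show List.ofFn (fun i => Lt.B q i) ≠ []
    intro h
    have := congrArg List.length h
    rw [hBlen] at this
    simp at this
    omega
  have hnea : alp M (Lt.a (some q)) ≠ [] := by
    show List.ofFn (fun i => Lt.b q i) ≠ []
    intro h
    have := congrArg List.length h
    rw [List.length_ofFn] at this
    simp at this
    omega
  have s1 := D1_read (P := M.P) (α := alp M) hP hneA (List.replicate n (Lt.a (some q)))
  have s2 := D1_block (P := M.P) (α := alp M) hP hnea n (alp M (Lt.A (some q)))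
  -- skip `i` letters
  have s3 : D1Run M.P (alp M) i ((1 + n) % M.P, alp M (Lt.A (some q)) ++
      (List.replicate (n / M.P) (alp M (Lt.a (some q)))).flatten)
      (0, (alp M (Lt.A (some q))).drop i ++
        (List.replicate (n / M.P) (alp M (Lt.a (some q)))).flatten) := by
    have hmod : (1 + n) % M.P = (1 + n % M.P) % M.P := by rw [Nat.add_mod_mod]
    rcases Nat.eq_zero_or_pos i with h0 | h0
    · have : (1 + n) % M.P = 0 := by
        rw [hmod, show 1 + n % M.P = M.P by omega, Nat.mod_self]
      rw [this, h0, List.drop_zero]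
      exact D1Run.refl _
    · have h1 : (1 + n) % M.P = 1 + n % M.P := by
        rw [hmod]; exact Nat.mod_eq_of_lt (by omega)
      have htl : ((alp M (Lt.A (some q))).take i).length = i := by
        rw [List.length_take, show (alp M (Lt.A (some q))).length = M.P from hBlen]
        omega
      have h := D1_skip (P := M.P) (α := alp M) ((alp M (Lt.A (some q))).take i) (1 + n % M.P)
        ((alp M (Lt.A (some q))).drop i ++
          (List.replicate (n / M.P) (alp M (Lt.a (some q)))).flatten) (by omega) (by omega)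
        (by rw [htl]; omega)
      rw [htl, show 1 + n % M.P + i = M.P by omega, Nat.mod_self, ← List.append_assoc,
        List.take_append_drop] at h
      rw [h1]
      exact h
  -- read `B q i`
  have hneB : alp M (Lt.B q ⟨i, hiP⟩) ≠ [] := by
    show List.replicate i Lt.x ++ _ ≠ []
    simp
  have hdrop : (alp M (Lt.A (some q))).drop i = Lt.B q ⟨i, hiP⟩ ::
      (alp M (Lt.A (some q))).drop (i + 1) := by
    rw [List.drop_eq_getElem_cons (by
      rw [show (alp M (Lt.A (some q))).length = M.P from hBlen]; exact hiP)]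
    congr 1
    simp [alp]
  rw [hdrop, List.cons_append] at s3
  have s4 := D1_read (P := M.P) (α := alp M) hP hneB ((alp M (Lt.A (some q))).drop (i + 1) ++
        (List.replicate (n / M.P) (alp M (Lt.a (some q)))).flatten)
  -- the loop
  obtain ⟨D', k, hD', s5⟩ := D1_loop M hP hm q i hiP (n / M.P)
    ((alp M (Lt.A (some q))).drop (i + 1)) (alp M (Lt.B q ⟨i, hiP⟩)) (by
      rw [List.length_drop, show (alp M (Lt.A (some q))).length = M.P from hBlen]
      omega)
  rw [List.append_assoc] at s4
  -- skip the rest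
  have hl6 : (D' ++ List.replicate i Lt.x).length = M.P - 1 := by
    rw [List.length_append, hD', List.length_replicate]
    omega
  have s6 := D1_skip (P := M.P) (α := alp M) (D' ++ List.replicate i Lt.x) 1
    (Lt.A (M.nx q (M.P - 1 - i)) :: (List.replicate (M.ad q (M.P - 1 - i))
      (Lt.a (M.nx q (M.P - 1 - i))) ++ List.replicate (M.mu q (M.P - 1 - i) * (n / M.P))
          (Lt.a (M.nx q (M.P - 1 - i))))) one_pos (by omega) (by rw [hl6]; omega)
  rw [hl6, show 1 + (M.P - 1) = M.P by omega, Nat.mod_self, List.replicate_append_replicate,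
    add_comm (M.ad q (M.P - 1 - i))] at s6
  have e5 : D' ++ (alp M (Lt.B q ⟨i, hiP⟩) ++ List.replicate (M.mu q (M.P - 1 - i) * (n / M.P))
      (Lt.a (M.nx q (M.P - 1 - i)))) = (D' ++ List.replicate i Lt.x) ++
      (Lt.A (M.nx q (M.P - 1 - i)) :: List.replicate (M.mu q (M.P - 1 - i) * (n / M.P) +
        M.ad q (M.P - 1 - i)) (Lt.a (M.nx q (M.P - 1 - i)))) := by
    rw [add_comm (M.mu q (M.P - 1 - i) * (n / M.P)), ← List.replicate_append_replicate]
    simp [alp]
  rw [e5] at s5
  rw [hρi]
  exact ⟨1 + n + i + 1 + k + (M.P - 1), by omega,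
    ((((s1.trans s2).trans s3).trans s4).trans s5).trans s6⟩

end D1mach

section D1final

variable {Q : Type} (M : OM Q)

theorem D1_halts (hP : 2 ≤ M.P) (hm : ∀ q r, 0 < M.mu q r) (o : Option Q) (n : ℕ)
    (h : M.Halts o n) : ∃ k, (∀ m < k, GoodX (alp M) ((lsX M.P (alp M))^[m]
      (0, Lt.A o :: List.replicate n (Lt.a o)))) ∧
      ∀ l ∈ ((lsX M.P (alp M))^[k] (0, Lt.A o :: List.replicate n (Lt.a o))).2, alp M l = [] := by
  induction h with
  | stop n =>
    refine ⟨0, by simp, fun l hl => ?_⟩
    rw [Function.iterate_zero, id] at hl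
    rcases List.mem_cons.1 hl with rfl | hl
    · rfl
    · rw [List.eq_of_mem_replicate hl]
      rfl
  | step q n _ ih =>
    obtain ⟨k, hk1, hk2⟩ := ih
    obtain ⟨k', -, hr1, hr2⟩ := D1_macro M hP hm q n
    refine ⟨k + k', fun m hlt => ?_, fun l hl => ?_⟩
    · rcases lt_or_ge m k' with h | h
      · exact hr2 m h
      · obtain ⟨t, rfl⟩ := Nat.exists_eq_add_of_le h
        rw [add_comm, Function.iterate_add_apply, hr1]
        exact hk1 t (by omega)
    · rw [Function.iterate_add_apply, hr1] at hl
      exact hk2 l hl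

theorem D1_empty {X : Type} {P : ℕ} {α : X → List X} (s : ℕ × List X) (hs : s.2 = []) (k : ℕ) :
    ((lsX P α)^[k] s).2 = [] := by
  induction k with
  | zero => exact hs
  | succ k ih =>
    rw [Function.iterate_succ_apply']
    generalize (lsX P α)^[k] s = z at ih
    obtain ⟨nu, t⟩ := z
    have ih' : t = [] := ih
    subst ih'
    rfl

theorem D1_lives (hP : 2 ≤ M.P) (hm : ∀ q r, 0 < M.mu q r) (N : ℕ) : ∀ (q : Q) (n : ℕ),
    ¬ M.Halts (some q) n → GoodX (alp M) ((lsX M.P (alp M))^[N]
      (0, Lt.A (some q) :: List.replicate n (Lt.a (some q)))) ∧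
      ((lsX M.P (alp M))^[N] (0, Lt.A (some q) :: List.replicate n (Lt.a (some q)))).2 ≠ [] := by
  induction N using Nat.strong_induction_on with
  | _ N ih =>
    intro q n hn
    obtain ⟨k, hk, hr1, hr2⟩ := D1_macro M hP hm q n
    rcases lt_or_ge N k with h | h
    · refine ⟨hr2 N h, fun he => ?_⟩
      have h1 := D1_empty (P := M.P) (α := alp M) _ he (k - N)
      rw [← Function.iterate_add_apply, Nat.sub_add_cancel h.le, hr1] at h1
      simp at h1
    · obtain ⟨t, rfl⟩ := Nat.exists_eq_add_of_le h
      rw [add_comm, Function.iterate_add_apply, hr1]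
      have hn' : ¬ M.Halts (M.nx q (n % M.P))
          (M.mu q (n % M.P) * (n / M.P) + M.ad q (n % M.P)) := fun h' => hn (OM.Halts.step q n h')
      rcases ho : M.nx q (n % M.P) with - | q'
      · rw [ho] at hn'
        exact absurd (OM.Halts.stop _) hn'
      · rw [ho] at hn'
        exact ih t (by omega) q' _ hn'

end D1final

/-- TARGET -/
theorem stD1 {Q : Type} (M : OM Q) (hP : 2 ≤ M.P) (hm : ∀ q r, 0 < M.mu q r) (q0 : Q) (n : ℕ) :
    (M.Halts (some q0) n →
      DiesX M.P (alp M) (Lt.A (some q0) :: List.replicate n (Lt.a (some q0)))) ∧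
    (¬ M.Halts (some q0) n →
      LivesX M.P (alp M) (Lt.A (some q0) :: List.replicate n (Lt.a (some q0)))) := by
  refine ⟨fun h => D1_halts M hP hm (some q0) n h, fun h N => D1_lives M hP hm N q0 n h⟩

end Pool.Agent.Helper231_PCP
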