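import Mathlib
import Pool.Agent.H502.PcReg
import Pool.Agent.Helper231_PCP.Defs

set_option autoImplicit false

/-! A one-register machine with undecidable halting problem. -/

namespace Pool.Agent.Helper231_PCP

open Pool.Agent.H502.PcSrc

/-- the prime of a register -/
def stE_prm : Bool × Bool → ℕ
  | (false, true) => 2
  | (false, false) => 3
  | (true, true) => 5
  | (true, false) => 7

/-- Gödel code of register contents -/
def stE_cd (c : Bool × Bool → ℤ) : ℕ :=
  2 ^ (c (false, true)).toNat * 3 ^ (c (false, false)).toNat *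
    5 ^ (c (true, true)).toNat * 7 ^ (c (true, false)).toNat

theorem stE_cd_pos (c : Bool × Bool → ℤ) : 0 < stE_cd c := by
  unfold stE_cd
  positivity

theorem stE_cd_add (c v : Bool × Bool → ℤ) (hc : ∀ j, 0 ≤ c j) (hv : ∀ j, 0 ≤ v j) :
    stE_cd (c + v) = stE_cd c * stE_cd v := by
  unfold stE_cd
  simp only [Pi.add_apply]
  rw [Int.toNat_add (hc _) (hv _), Int.toNat_add (hc _) (hv _), Int.toNat_add (hc _) (hv _),
    Int.toNat_add (hc _) (hv _)]
  simp only [pow_add]
  ring

theorem stE_prm_dvd_cd (c : Bool × Bool → ℤ) (j : Bool × Bool) :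
    stE_prm j ∣ stE_cd c ↔ 0 < c j := by
  have h2 : ∀ k : ℕ, ¬ 2 ∣ 3 ^ k := fun k h => by
    have := Nat.Prime.dvd_of_dvd_pow Nat.prime_two h; omega
  have h2' : ∀ k : ℕ, ¬ 2 ∣ 5 ^ k := fun k h => by
    have := Nat.Prime.dvd_of_dvd_pow Nat.prime_two h; omega
  have h2'' : ∀ k : ℕ, ¬ 2 ∣ 7 ^ k := fun k h => by
    have := Nat.Prime.dvd_of_dvd_pow Nat.prime_two h; omega
  have h3 : ∀ k : ℕ, ¬ 3 ∣ 2 ^ k := fun k h => by
    have := Nat.Prime.dvd_of_dvd_pow Nat.prime_three h; omega
  have h3' : ∀ k : ℕ, ¬ 3 ∣ 5 ^ k := fun k h => by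
    have := Nat.Prime.dvd_of_dvd_pow Nat.prime_three h; omega
  have h3'' : ∀ k : ℕ, ¬ 3 ∣ 7 ^ k := fun k h => by
    have := Nat.Prime.dvd_of_dvd_pow Nat.prime_three h; omega
  have p5 : Nat.Prime 5 := by norm_num
  have p7 : Nat.Prime 7 := by norm_num
  have h5 : ∀ k : ℕ, ¬ 5 ∣ 2 ^ k := fun k h => by
    have := Nat.Prime.dvd_of_dvd_pow p5 h; omega
  have h5' : ∀ k : ℕ, ¬ 5 ∣ 3 ^ k := fun k h => by
    have := Nat.Prime.dvd_of_dvd_pow p5 h; omega
  have h5'' : ∀ k : ℕ, ¬ 5 ∣ 7 ^ k := fun k h => by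
    have := Nat.Prime.dvd_of_dvd_pow p5 h; omega
  have h7 : ∀ k : ℕ, ¬ 7 ∣ 2 ^ k := fun k h => by
    have := Nat.Prime.dvd_of_dvd_pow p7 h; omega
  have h7' : ∀ k : ℕ, ¬ 7 ∣ 3 ^ k := fun k h => by
    have := Nat.Prime.dvd_of_dvd_pow p7 h; omega
  have h7'' : ∀ k : ℕ, ¬ 7 ∣ 5 ^ k := fun k h => by
    have := Nat.Prime.dvd_of_dvd_pow p7 h; omega
  have key : ∀ (p : ℕ) (k : ℤ), p.Prime → (p ∣ p ^ k.toNat ↔ 0 < k) := by
    intro p k hp
    constructor
    · intro h
      by_contra hk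
      have : k.toNat = 0 := by omega
      rw [this, pow_zero] at h
      exact hp.one_lt.ne' (Nat.dvd_one.mp h)
    · intro h
      exact dvd_pow_self p (by omega)
  obtain ⟨j1, j2⟩ := j
  cases j1 <;> cases j2
  · change 3 ∣ _ ↔ _
    rw [stE_cd, Nat.prime_three.dvd_mul, Nat.prime_three.dvd_mul, Nat.prime_three.dvd_mul,
      key _ _ Nat.prime_three]
    simp [h3, h3', h3'']
  · change 2 ∣ _ ↔ _
    rw [stE_cd, Nat.prime_two.dvd_mul, Nat.prime_two.dvd_mul, Nat.prime_two.dvd_mul,
      key _ _ Nat.prime_two]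
    simp [h2, h2', h2'']
  · change 7 ∣ _ ↔ _
    rw [stE_cd, p7.dvd_mul, p7.dvd_mul, p7.dvd_mul, key _ _ p7]
    simp [h7, h7', h7'']
  · change 5 ∣ _ ↔ _
    rw [stE_cd, p5.dvd_mul, p5.dvd_mul, p5.dvd_mul, key _ _ p5]
    simp [h5, h5', h5'']

theorem stE_prm_pos (j : Bool × Bool) : 0 < stE_prm j := by
  obtain ⟨j1, j2⟩ := j
  cases j1 <;> cases j2 <;> simp [stE_prm]

theorem stE_prm_dvd (j : Bool × Bool) : stE_prm j ∣ 210 := by
  obtain ⟨j1, j2⟩ := j
  cases j1 <;> cases j2 <;> simp only [stE_prm] <;> norm_num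

/-- unit vector -/
def stE_e (j : Bool × Bool) : Bool × Bool → ℤ := fun i => if i = j then 1 else 0

theorem stE_cd_e (j : Bool × Bool) : stE_cd (stE_e j) = stE_prm j := by
  obtain ⟨j1, j2⟩ := j
  cases j1 <;> cases j2 <;> simp [stE_cd, stE_e, stE_prm]

theorem stE_cd_sub (c v : Bool × Bool → ℤ) (j : Bool × Bool) (hc : ∀ i, 0 ≤ c i) (hj : 0 < c j)
    (hv : ∀ i, i ≠ j → 0 ≤ v i) (hvj : v j = -1) :
    stE_cd (c + v) * stE_prm j = stE_cd c * stE_cd v := by
  have e1 : (c + v) + stE_e j = c + (v + stE_e j) := by rw [add_assoc]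
  have h0 : ∀ i, 0 ≤ stE_e j i := by
    intro i; unfold stE_e; split_ifs <;> omega
  have hcv : ∀ i, 0 ≤ (c + v) i := by
    intro i
    by_cases hi : i = j
    · subst hi
      rw [Pi.add_apply, hvj]; omega
    · have := hv i hi
      have := hc i
      rw [Pi.add_apply]; omega
  have hve : ∀ i, 0 ≤ (v + stE_e j) i := by
    intro i
    by_cases hi : i = j
    · subst hi
      rw [Pi.add_apply, hvj]; simp [stE_e]
    · have := hv i hi
      have := h0 i
      rw [Pi.add_apply]; omega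
  have h1 := stE_cd_add (c + v) (stE_e j) hcv h0
  have h2 := stE_cd_add c (v + stE_e j) hc hve
  have h3 : stE_cd (v + stE_e j) = stE_cd v := by
    have : ∀ i, ((v + stE_e j) i).toNat = (v i).toNat := by
      intro i
      by_cases hi : i = j
      · subst hi
        rw [Pi.add_apply, hvj]; simp [stE_e]
      · rw [Pi.add_apply]; simp [stE_e, hi]
    unfold stE_cd
    simp only [this]
  rw [stE_cd_e] at h1
  rw [← h1, e1, h2, h3]

/-- the one register machine of a register machine -/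
def stE_om {P : Type} (R : DM P (Bool × Bool)) : OM P where
  P := 210
  nx p ρ := R.nxt p (decide (stE_prm (R.reg p) ∣ ρ))
  mu p ρ := if stE_prm (R.reg p) ∣ ρ then (210 / stE_prm (R.reg p)) * stE_cd (R.vec p true)
    else 210 * stE_cd (R.vec p false)
  ad p ρ := if stE_prm (R.reg p) ∣ ρ then (ρ / stE_prm (R.reg p)) * stE_cd (R.vec p true)
    else ρ * stE_cd (R.vec p false)

theorem stE_om_mu_pos {P : Type} (R : DM P (Bool × Bool)) (p : P) (ρ : ℕ) :
    0 < (stE_om R).mu p ρ := by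
  simp only [stE_om]
  split_ifs
  · exact Nat.mul_pos (Nat.div_pos (Nat.le_of_dvd (by norm_num) (stE_prm_dvd _)) (stE_prm_pos _))
      (stE_cd_pos _)
  · exact Nat.mul_pos (by norm_num) (stE_cd_pos _)

theorem stE_step {P : Type} (R : DM P (Bool × Bool)) (p : P) (c : Bool × Bool → ℤ)
    (hc : ∀ j, 0 ≤ c j) :
    (stE_om R).nx p (stE_cd c % (stE_om R).P) = R.nxt p (R.br p c) ∧
    (stE_om R).mu p (stE_cd c % (stE_om R).P) * (stE_cd c / (stE_om R).P) +
      (stE_om R).ad p (stE_cd c % (stE_om R).P) = stE_cd (c + R.vec p (R.br p c)) := by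
  have hd : stE_prm (R.reg p) ∣ stE_cd c % 210 ↔ 0 < c (R.reg p) := by
    rw [← stE_prm_dvd_cd]
    exact Nat.dvd_mod_iff (stE_prm_dvd _)
  have hmod := Nat.div_add_mod (stE_cd c) 210
  simp only [stE_om]
  by_cases h : 0 < c (R.reg p)
  · have hb : R.br p c = true := by simp [DM.br, h]
    have hd' := hd.mpr h
    rw [hb]
    refine ⟨by simp [hd'], ?_⟩
    rw [if_pos hd', if_pos hd']
    have h1 := stE_cd_sub c (R.vec p true) (R.reg p) hc h (fun i hi => R.hp p i hi) (R.hp' p)
    obtain ⟨a, ha⟩ := stE_prm_dvd (R.reg p)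
    obtain ⟨b, hb⟩ := hd'
    have hpp := stE_prm_pos (R.reg p)
    have ea : 210 / stE_prm (R.reg p) = a := by
      rw [ha]; exact Nat.mul_div_cancel_left _ hpp
    have eb : (stE_cd c % 210) / stE_prm (R.reg p) = b := by
      rw [hb]; exact Nat.mul_div_cancel_left _ hpp
    rw [ea, eb]
    apply Nat.eq_of_mul_eq_mul_right hpp
    rw [h1]
    have : stE_cd c = stE_prm (R.reg p) * (a * (stE_cd c / 210) + b) := by
      rw [mul_add, ← mul_assoc, ← ha, ← hb]
      exact hmod.symm
    calc (a * stE_cd (R.vec p true) * (stE_cd c / 210) + b * stE_cd (R.vec p true)) *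
          stE_prm (R.reg p) = (stE_prm (R.reg p) * (a * (stE_cd c / 210) + b)) *
          stE_cd (R.vec p true) := by ring
      _ = stE_cd c * stE_cd (R.vec p true) := by rw [← this]
  · have hb : R.br p c = false := by simp [DM.br, h]
    have hd' : ¬ stE_prm (R.reg p) ∣ stE_cd c % 210 := fun h' => h (hd.mp h')
    rw [hb]
    refine ⟨by simp [hd'], ?_⟩
    rw [if_neg hd', if_neg hd']
    rw [stE_cd_add c _ hc (R.hz p)]
    calc 210 * stE_cd (R.vec p false) * (stE_cd c / 210) + stE_cd c % 210 * stE_cd (R.vec p false)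
        = (210 * (stE_cd c / 210) + stE_cd c % 210) * stE_cd (R.vec p false) := by ring
      _ = _ := by rw [hmod]

theorem stE_iff {P : Type} (R : DM P (Bool × Bool)) (p : P) (c : Bool × Bool → ℤ)
    (hc : ∀ j, 0 ≤ c j) :
    (stE_om R).Halts (some p) (stE_cd c) ↔ R.Halts (some p, c) := by
  constructor
  · intro h
    generalize ho : some p = o at h
    generalize hn : stE_cd c = n at h
    induction h generalizing p c with
    | stop n => exact absurd ho (by simp)
    | step q n _ ih =>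
      obtain rfl : p = q := Option.some.inj ho
      subst hn
      obtain ⟨h1, h2⟩ := stE_step R p c hc
      have hnn := DM.st_nonneg R (some p, c) hc
      rw [← DM.halts_st]
      change R.Halts (R.nxt p (R.br p c), c + R.vec p (R.br p c))
      rcases hq : R.nxt p (R.br p c) with _ | q'
      · exact ⟨0, rfl⟩
      · have h3 := ih q' _ hnn (by rw [h1, hq]) h2.symm
        rw [h1, hq] at h3
        exact h3
  · rintro ⟨k, hk⟩
    induction k generalizing p c with
    | zero => exact absurd hk (by simp)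
    | succ k ih =>
      rw [Function.iterate_succ_apply] at hk
      obtain ⟨h1, h2⟩ := stE_step R p c hc
      have hnn := DM.st_nonneg R (some p, c) hc
      apply OM.Halts.step
      rw [h1, h2]
      change (R.st^[k] (R.nxt p (R.br p c), c + R.vec p (R.br p c))).1 = none at hk
      rcases hq : R.nxt p (R.br p c) with _ | q'
      · exact OM.Halts.stop _
      · rw [hq] at hk
        exact ih q' _ hnn hk

/-
PROOF. Take (Q0, M0, q0, N0) from PcSrc.exists_sys and the FIXED register machine R = PcSrc.dm M0 q0 0 (states RS M0, finite; registers Bool × Bool).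
By PcSrc.dm_halts_iff M0 q0 0: R halts from (some (.d1 q0 (z0 M0)), v4 (N0 x) 0 0 0) iff M0.Halts (some q0) (ini (N0 x)) (ini: true ↦ N, false ↦ 0).
Code register contents c : Bool × Bool → ℤ (nonnegative) as n = 2^(c r1) 3^(c r2) 5^(c r3) 7^(c r4), P = 210. For state p with inspected register r, prime π:
 ρ = n % 210, π ∣ n iff π ∣ ρ iff c r > 0 (br = true). If π ∣ ρ: nx = R.nxt p true, V = product over the other registers j of
 prime_j ^ (R.vec p true j).toNat, mu = (210/π) V, ad = (ρ/π) V, since (n/π) V = (210/π) V (n/210) + (ρ/π) V. Otherwise nx = R.nxt p false,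
 V = product over all j of prime_j ^ (R.vec p false j).toNat, mu = 210 V, ad = ρ V.
 R.Halts x is ∃ k, (R.st^[k] x).1 = none. Q := RS M0, start register 2^(N0 x) in state .d1 q0 (z0 M0) (choose 2 for the register (false,true), see v4).
 N x := 2^(N0 x) is computable.
-/

/-- TARGET: a one-register machine with undecidable halting problem -/
theorem stE : ∃ (Q : Type) (_ : Finite Q) (M : OM Q) (q0 : Q) (N : ℕ → ℕ), 2 ≤ M.P ∧
    (∀ q r, 0 < M.mu q r) ∧ Computable N ∧
    ¬ ComputablePred (fun n => M.Halts (some q0) (N n)) := by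
  obtain ⟨Q0, hQ0, M0, q0, N0, _, hN0, h⟩ := exists_sys
  refine ⟨RS M0, inferInstance, stE_om (dm M0 q0 0), .d1 q0 (z0 M0), fun x => 2 ^ N0 x, ?_,
    stE_om_mu_pos _, ?_, ?_⟩
  · change 2 ≤ 210
    norm_num
  · have hp : Primrec (fun n : ℕ => 2 ^ n) := by
      have h1 : Primrec₂ (fun (_ : ℕ) (y : ℕ) => 2 * y) :=
        Primrec.nat_mul.comp (Primrec.const 2) Primrec.snd
      have h2 := Primrec.nat_rec₁ (α := ℕ) 1 h1
      refine h2.of_eq ?_
      intro n
      induction n with
      | zero => rfl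
      | succ n ih =>
        change 2 * (Nat.rec 1 (fun _ y => 2 * y) n : ℕ) = _
        rw [ih, pow_succ]
        ring
    exact hp.to_comp.comp hN0
  · intro hc
    apply h
    refine hc.of_eq ?_
    intro n
    have e : (2 : ℕ) ^ N0 n = stE_cd (v4 (ini (N0 n) true) (ini (N0 n) false) 0 0) := by
      simp [stE_cd, v4, ini]
    change (stE_om (dm M0 q0 0)).Halts (some (RS.d1 q0 (z0 M0))) (2 ^ N0 n) ↔ _
    rw [e, stE_iff, dm_halts_iff]
    rintro ⟨j1, j2⟩
    cases j1 <;> cases j2 <;> simp [v4, ini]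

end Pool.Agent.Helper231_PCP
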