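import Mathlib
import Pool.Agent.Helper231_PCP.Defs
import Pool.Agent.Helper231_PCP.Defs2

set_option autoImplicit false

/-! The four pairs and block words. -/

namespace Pool.Agent.Helper231_PCP

/-- the symbol read by a letter -/
def sym (i : Fin 4) : Bool := ![false, true, false, true] i

/-- lead letters -/
def lead (x : Bool) : Fin 4 := if x then 3 else 2

/-- non-lead letters -/
def nl (x : Bool) : Fin 4 := if x then 1 else 0

/-- the word of a list of blocks -/
def wB (B : List (Bool × List Bool)) : List (Fin 4) := B.flatMap (fun p => lead p.1 :: p.2.map nl)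

/-- auxiliary -/
def TT (k : ℕ) (s : List Bool) : List ℕ := s.flatMap (fun x => List.replicate k 0 ++ [cd x])

lemma gI_eq (k : ℕ) (i : Fin 4) : gI k i = cd (sym i) :: List.replicate k 0 := by
  fin_cases i <;> simp [gI, sym, cd]

lemma ext_gI (k : ℕ) (w : List (Fin 4)) : ext (gI k) w = enc k (w.map sym) := by
  unfold ext enc
  induction w with
  | nil => rfl
  | cons a w ih => simp only [List.flatMap_cons, List.map_cons, ih, gI_eq]

lemma sym_lead (x : Bool) : sym (lead x) = x := by cases x <;> simp [sym, lead]

lemma sym_nl (x : Bool) : sym (nl x) = x := by cases x <;> simp [sym, nl]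

lemma cases4 (i : Fin 4) : (∃ x, i = lead x) ∨ (∃ x, i = nl x) := by
  fin_cases i
  · exact Or.inr ⟨false, rfl⟩
  · exact Or.inr ⟨true, rfl⟩
  · exact Or.inl ⟨false, rfl⟩
  · exact Or.inl ⟨true, rfl⟩

lemma encm_cons (k : ℕ) (x : Bool) (p : List Bool) : encm k (x :: p) = cd x :: TT k p := by
  unfold encm TT
  rw [List.flatMap_cons, List.append_assoc, List.drop_left' (by simp)]
  rfl

lemma hI_lead (k : ℕ) (u : List Bool) (x : Bool) : hI k u (lead x) = encm k (prd u x) := by
  cases x
  · simp [hI, lead, prd, encm_cons, TT, cd]
  · simp [hI, lead, prd]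

lemma hI_nl (k : ℕ) (u : List Bool) (x : Bool) : hI k u (nl x) = [0] := by
  cases x <;> simp [hI, nl]

lemma prd_ne (u : List Bool) (hu : u ≠ []) (x : Bool) : prd u x ≠ [] := by
  cases x <;> simp [prd, hu]

lemma TT_app (k : ℕ) (s : List Bool) :
    TT k s ++ List.replicate k 0 = List.replicate k 0 ++ enc k s := by
  induction s with
  | nil => simp [TT, enc]
  | cons x s ih =>
    unfold TT enc at ih ⊢
    rw [List.flatMap_cons, List.append_assoc, ih, List.flatMap_cons]
    simp

lemma encm_app (k : ℕ) (p : List Bool) (hp : p ≠ []) :
    encm k p ++ List.replicate k 0 = enc k p := by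
  obtain ⟨x, p, rfl⟩ := List.exists_cons_of_ne_nil hp
  rw [encm_cons, List.cons_append, TT_app]
  simp [enc]

lemma enc_append (k : ℕ) (s t : List Bool) : enc k (s ++ t) = enc k s ++ enc k t := by
  simp [enc]

lemma ext_append {n : ℕ} (h : Fin n → List ℕ) (v w : List (Fin n)) :
    ext h (v ++ w) = ext h v ++ ext h w := by
  simp [ext]

lemma ext_nl (k : ℕ) (u : List Bool) (s : List Bool) :
    ext (hI k u) (s.map nl) = List.replicate s.length 0 := by
  induction s with
  | nil => rfl
  | cons x s ih =>
    unfold ext at ih ⊢
    rw [List.map_cons, List.flatMap_cons, ih, hI_nl, List.length_cons, List.replicate_succ]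
    rfl

lemma wB_cons (p : Bool × List Bool) (B : List (Bool × List Bool)) :
    wB (p :: B) = lead p.1 :: (p.2.map nl ++ wB B) := by
  simp [wB]

lemma map_sym_wB (B : List (Bool × List Bool)) : (wB B).map sym = sB B := by
  induction B with
  | nil => rfl
  | cons p B ih =>
    rw [wB_cons, List.map_cons, List.map_append, ih, sym_lead]
    have : (p.2.map nl).map sym = p.2 := by
      rw [List.map_map]
      conv_rhs => rw [← List.map_id p.2]
      apply List.map_congr_left
      intro x _
      exact sym_nl x
    rw [this]
    simp [sB]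

lemma ext_hI_wB (k : ℕ) (u : List Bool) (hu : u ≠ []) (B : List (Bool × List Bool))
    (hB : ∀ p ∈ B, p.2.length = k) : ext (hI k u) (wB B) = enc k (pB u B) := by
  induction B with
  | nil => rfl
  | cons p B ih =>
    have h1 := ih (fun p hp => hB p (by simp [hp]))
    have h2 : ext (hI k u) (wB (p :: B)) =
        hI k u (lead p.1) ++ (ext (hI k u) (p.2.map nl) ++ ext (hI k u) (wB B)) := by
      rw [wB_cons, ← ext_append]
      rfl
    rw [h2, h1, ext_nl, hB p (by simp), hI_lead, ← List.append_assoc,
      encm_app k _ (prd_ne u hu p.1), ← enc_append]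
    simp [pB]

lemma cd_ne (x : Bool) : cd x ≠ 0 := by cases x <;> simp [cd]

lemma cd_inj {x y : Bool} (h : cd x = cd y) : x = y := by
  cases x <;> cases y <;> simp [cd] at h ⊢

lemma enc_cons (k : ℕ) (x : Bool) (y : List Bool) :
    enc k (x :: y) = cd x :: (List.replicate k 0 ++ enc k y) := by
  simp [enc]

lemma enc_inj (k : ℕ) (s t : List Bool) (h : enc k s = enc k t) : s = t := by
  induction s generalizing t with
  | nil =>
    cases t with
    | nil => rfl
    | cons y t => rw [enc_cons] at h; simp [enc] at h
  | cons x s ih =>
    cases t with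
    | nil => rw [enc_cons] at h; simp [enc] at h
    | cons y t =>
      rw [enc_cons, enc_cons, List.cons.injEq] at h
      rw [cd_inj h.1, ih t (List.append_cancel_left h.2)]

lemma TT_split (k : ℕ) (p y : List Bool) (z : List ℕ)
    (h : TT k p ++ z = List.replicate k 0 ++ enc k y) :
    ∃ y', z = List.replicate k 0 ++ enc k y' := by
  induction p generalizing y with
  | nil => exact ⟨y, by simpa [TT] using h⟩
  | cons x p ih =>
    have h1 : TT k (x :: p) ++ z = List.replicate k 0 ++ (cd x :: (TT k p ++ z)) := by
      simp [TT]
    rw [h1] at h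
    have h2 := List.append_cancel_left h
    cases y with
    | nil => simp [enc] at h2
    | cons y0 y =>
      rw [enc_cons, List.cons.injEq] at h2
      exact ih y h2.2

lemma decomp (k : ℕ) (u : List Bool) (hu : u ≠ []) (w : List (Fin 4)) :
    ∀ (j : ℕ) (y : List Bool), ext (hI k u) w = List.replicate j 0 ++ enc k y →
      ∃ (ns : List Bool) (B : List (Bool × List Bool)), w = ns.map nl ++ wB B ∧
        ns.length = j ∧ ∀ p ∈ B, p.2.length = k := by
  induction w with
  | nil =>
    intro j y h
    have hj : j = 0 := by
      cases j with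
      | zero => rfl
      | succ j => simp [ext, List.replicate_succ] at h
    exact ⟨[], [], rfl, by rw [hj]; rfl, by simp⟩
  | cons a w ih =>
    intro j y h
    have h0 : ext (hI k u) (a :: w) = hI k u a ++ ext (hI k u) w := rfl
    rw [h0] at h
    rcases cases4 a with ⟨x, rfl⟩ | ⟨x, rfl⟩
    · rw [hI_lead] at h
      obtain ⟨p0, p, hp⟩ := List.exists_cons_of_ne_nil (prd_ne u hu x)
      rw [hp, encm_cons, List.cons_append] at h
      have hj : j = 0 := by
        cases j with
        | zero => rfl
        | succ j =>
          rw [List.replicate_succ, List.cons_append, List.cons.injEq] at h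
          exact absurd h.1 (cd_ne p0)
      subst hj
      simp only [List.replicate_zero, List.nil_append] at h
      cases y with
      | nil => simp [enc] at h
      | cons y0 y =>
        rw [enc_cons, List.cons.injEq] at h
        obtain ⟨y', hy'⟩ := TT_split k p y _ h.2
        obtain ⟨ns, B, h1, h2, h3⟩ := ih k y' hy'
        refine ⟨[], (x, ns) :: B, ?_, rfl, ?_⟩
        · rw [wB_cons, h1]
          rfl
        · intro q hq
          rw [List.mem_cons] at hq
          rcases hq with hq | hq
          · rw [hq]; exact h2
          · exact h3 q hq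
    · rw [hI_nl] at h
      cases j with
      | zero =>
        simp only [List.replicate_zero, List.nil_append, List.cons_append] at h
        cases y with
        | nil => simp [enc] at h
        | cons y0 y =>
          rw [enc_cons, List.cons.injEq] at h
          exact absurd h.1.symm (cd_ne y0)
      | succ j =>
        rw [List.replicate_succ, List.cons_append, List.cons_append, List.cons.injEq] at h
        obtain ⟨ns, B, h1, h2, h3⟩ := ih j y (by simpa using h.2)
        exact ⟨x :: ns, B, by rw [h1]; rfl, by rw [List.length_cons, h2], h3⟩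

/-
PROOF. Write w(B) = for each block (x, ys): the lead letter of x (index 2 if x=b=false, 3 if x=c=true) followed by the non-lead
letters of ys (index 0 for false, 1 for true). Then ext gI (w B) = enc k (sB B), and ext hI (w B) = enc k (pB u B), because
for p ≠ []  encm k p ++ 0^k = enc k p, and [1] ++ 0^k = enc k [false], and the k non-lead letters produce 0^k.
(<=) take w(B).
(=>) Lemma by induction on w: if ext hI w = replicate j 0 ++ enc k y for some y and j ≤ k, then w = ns ++ w(B) where ns consists of
 j non-lead letters (indices 0,1) and all blocks of B have length k: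
 w=[]: j=0. w=(non-lead)::w': the first symbol of ext hI w is 0, and enc k y is [] or starts with a nonzero symbol, so j≥1, apply IH with j-1.
 w=(lead)::w': ext hI w starts with a nonzero symbol so j=0. encm k p ++ z = enc k y with p ≠ [] (p = [false] or u) implies
 z = replicate k 0 ++ enc k y' for some y' (y = p ++ y'). Apply IH to w' with j=k: w' = ns ++ w(B), |ns|=k: new block.
 Apply it with j=0 and y = the symbols of w (ext gI w = enc k y). So w = w(B), B ≠ [] as w ≠ [], and enc k (sB B) = enc k (pB u B) gives
 sB B = pB u B as enc k is injective.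
-/

/-- TARGET -/
theorem stA1 (k : ℕ) (u : List Bool) (hu : u ≠ []) :
    PCPpos (gI k, hI k u) ↔
      ∃ B : List (Bool × List Bool), B ≠ [] ∧ (∀ p ∈ B, p.2.length = k) ∧ sB B = pB u B := by
  constructor
  · rintro ⟨w, hw, h⟩
    simp only at h
    rw [ext_gI] at h
    obtain ⟨ns, B, h1, h2, h3⟩ := decomp k u hu w 0 (w.map sym) (by
      rw [← h]; rfl)
    have hns : ns = [] := List.length_eq_zero_iff.mp h2
    subst hns
    simp only [List.map_nil, List.nil_append] at h1
    subst h1
    refine ⟨B, ?_, h3, ?_⟩
    · rintro rfl
      exact hw rfl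
    · rw [ext_hI_wB k u hu B h3, map_sym_wB] at h
      exact enc_inj k _ _ h
  · rintro ⟨B, hB, h1, h2⟩
    refine ⟨wB B, ?_, ?_⟩
    · obtain ⟨p, B, rfl⟩ := List.exists_cons_of_ne_nil hB
      rw [wB_cons]
      simp
    · simp only
      rw [ext_gI, map_sym_wB, ext_hI_wB k u hu B h1, h2]

end Pool.Agent.Helper231_PCP
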