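import Mathlib
import Pool.Agent.Helper231_PCP.Defs
import Pool.Agent.Helper231_PCP.Defs2

set_option autoImplicit false

/-! Block words and the binary tag process. -/

namespace Pool.Agent.Helper231_PCP

/-! ### the lemmas -/

theorem sB_cons (p : Bool × List Bool) (B : List (Bool × List Bool)) :
    sB (p :: B) = (p.1 :: p.2) ++ sB B := rfl

theorem pB_cons (u : List Bool) (p : Bool × List Bool) (B : List (Bool × List Bool)) :
    pB u (p :: B) = prd u p.1 ++ pB u B := rfl

theorem prd_length_cases {u : List Bool} {kap : ℕ} (hlen : u.length = kap + 1) (x : Bool) :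
    (prd u x).length = 1 ∨ (prd u x).length = kap + 1 := by
  cases x
  · left; rfl
  · right; exact hlen

/-- lengths of the successors of a nonempty word stay divisible by `k` -/
theorem step_dvd {k kap : ℕ} {u : List Bool} (hlen : u.length = kap + 1) (hdvd : k ∣ kap)
    {x : Bool} {V : List Bool} (hW : k ∣ (x :: V).length) :
    k + 1 ≤ ((x :: V) ++ prd u x).length ∧ k ∣ (tstep (k + 1) u (x :: V)).length := by
  obtain ⟨m, hm⟩ := hW
  have hm1 : 1 ≤ m := by
    rcases Nat.eq_zero_or_pos m with h | h
    · subst h; simp at hm
    · exact h
  obtain ⟨m', rfl⟩ : ∃ m', m = m' + 1 := ⟨m - 1, by omega⟩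
  have hm2 : k * (m' + 1) = k * m' + k := by ring
  rw [hm2] at hm
  constructor
  · rw [List.length_append, hm]
    rcases prd_length_cases hlen x with h | h <;> rw [h] <;> omega
  · show k ∣ (((x :: V) ++ prd u x).drop (k + 1)).length
    rw [List.length_drop, List.length_append, hm]
    rcases prd_length_cases hlen x with h | h
    · rw [h]
      exact ⟨m', by omega⟩
    · rw [h]
      have : k * m' + k + (kap + 1) - (k + 1) = k * m' + kap := by omega
      rw [this]
      exact Dvd.dvd.add ⟨m', rfl⟩ hdvd

theorem halts_of_blocks {k kap : ℕ} {u : List Bool} (hlen : u.length = kap + 1)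
    (hdvd : k ∣ kap) :
    ∀ (B : List (Bool × List Bool)) (W : List Bool), (∀ p ∈ B, p.2.length = k) →
      k ∣ W.length → W ++ pB u B = sB B → ∃ n, (tstep (k + 1) u)^[n] W = [] := by
  intro B
  induction B with
  | nil =>
    intro W _ _ h
    refine ⟨0, ?_⟩
    have h' : W ++ [] = [] := h
    rw [List.append_nil] at h'
    exact h'
  | cons p B ih =>
    intro W hB hW h
    cases W with
    | nil => exact ⟨0, rfl⟩
    | cons x V =>
      rw [pB_cons, sB_cons] at h
      have hx : x = p.1 := by
        have := congrArg List.head? h
        simpa using this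
      rw [← hx] at h
      obtain ⟨h1, h2⟩ := step_dvd hlen hdvd hW
      have hp : p.2.length = k := hB p List.mem_cons_self
      have h3 : tstep (k + 1) u (x :: V) ++ pB u B = sB B := by
        have h4 := congrArg (List.drop (k + 1)) h
        rw [← List.append_assoc, List.drop_append_of_le_length h1,
          List.drop_left' (show (x :: p.2).length = k + 1 by rw [List.length_cons, hp])] at h4
        exact h4
      obtain ⟨n, hn⟩ := ih _ (fun q hq => hB q (List.mem_cons_of_mem _ hq)) h2 h3
      exact ⟨n + 1, by rw [Function.iterate_succ_apply]; exact hn⟩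

theorem no_blocks {k kap : ℕ} {u : List Bool} (hk : 2 ≤ k) (hlen : u.length = kap + 1)
    (hdvd : k ∣ kap) (hA : ∀ q, 0 < q → k ∣ q → u.getD q false = false) :
    ∀ (B : List (Bool × List Bool)) (D : List Bool), (∀ p ∈ B, p.2.length = k) → D ≠ [] →
      k ∣ D.length → D ++ sB B ≠ pB u B := by
  intro B
  induction B with
  | nil =>
    intro D _ hD _ h
    have h' : D ++ [] = [] := h
    rw [List.append_nil] at h'
    exact hD h'
  | cons p B ih =>
    intro D hB hD hk' h
    obtain ⟨x, ys⟩ := p
    have hys : ys.length = k := hB (x, ys) List.mem_cons_self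
    have hB' : ∀ q ∈ B, q.2.length = k := fun q hq => hB q (List.mem_cons_of_mem _ hq)
    rw [pB_cons, sB_cons] at h
    simp only at h
    cases x with
    | false =>
      cases D with
      | nil => exact hD rfl
      | cons d D0 =>
        refine ih (D0 ++ false :: ys) hB' (by simp) ?_ ?_
        · have : (D0 ++ false :: ys).length = (d :: D0).length + k := by
            simp [hys]; omega
          rw [this]
          exact Dvd.dvd.add hk' (dvd_refl k)
        · have h4 := congrArg List.tail h
          simpa [prd] using h4
    | true =>
      have hprd : prd u true = u := rfl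
      rw [hprd] at h
      rcases lt_or_ge D.length u.length with hlt | hge
      · have h4 := congrArg (fun l => l.getD D.length false) h
        beta_reduce at h4
        rw [List.getD_append_right _ _ _ _ (le_refl _), List.getD_append _ _ _ _ hlt,
          hA D.length (List.length_pos_iff.2 hD) hk'] at h4
        simp at h4
      · refine ih (D.drop u.length ++ true :: ys) hB' (by simp) ?_ ?_
        · have : (D.drop u.length ++ true :: ys).length = D.length - kap + k := by
            rw [List.length_append, List.length_drop, List.length_cons, hys, hlen]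
            omega
          rw [this]
          exact Dvd.dvd.add (Nat.dvd_sub hk' hdvd) (dvd_refl k)
        · have h4 := congrArg (List.drop u.length) h
          rw [List.drop_append_of_le_length hge, List.drop_left] at h4
          rw [List.append_assoc]
          exact h4

theorem blocks_of_halts {k kap : ℕ} {u : List Bool} (hlen : u.length = kap + 1)
    (hdvd : k ∣ kap) :
    ∀ (n : ℕ) (W : List Bool), k ∣ W.length → (tstep (k + 1) u)^[n] W = [] →
      ∃ B : List (Bool × List Bool), (∀ p ∈ B, p.2.length = k) ∧ W ++ pB u B = sB B := by
  intro n
  induction n with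
  | zero =>
    intro W _ h
    have h' : W = [] := h
    exact ⟨[], by simp, by rw [h']; rfl⟩
  | succ n ih =>
    intro W hW h
    cases W with
    | nil => exact ⟨[], by simp, rfl⟩
    | cons x V =>
      obtain ⟨h1, h2⟩ := step_dvd hlen hdvd hW
      rw [Function.iterate_succ_apply] at h
      obtain ⟨B, hB, hB2⟩ := ih _ h2 h
      have hT : ((x :: V) ++ prd u x) =
          (x :: ((V ++ prd u x).take k)) ++ tstep (k + 1) u (x :: V) := by
        show _ = (x :: ((V ++ prd u x).take k)) ++ ((x :: V) ++ prd u x).drop (k + 1)
        rw [List.cons_append, List.cons_append, List.drop_succ_cons, List.take_append_drop]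
      refine ⟨(x, (V ++ prd u x).take k) :: B, ?_, ?_⟩
      · intro q hq
        rcases List.mem_cons.1 hq with h3 | h3
        · rw [h3]
          show ((V ++ prd u x).take k).length = k
          rw [List.length_take]
          rw [List.cons_append, List.length_cons] at h1
          omega
        · exact hB q h3
      · rw [pB_cons, sB_cons, ← List.append_assoc]
        show ((x :: V) ++ prd u x) ++ pB u B = _
        rw [hT, List.append_assoc, hB2]

/-- TARGET -/
theorem stA2 (k kap : ℕ) (u : List Bool) (hk : 2 ≤ k) (hlen : u.length = kap + 1)
    (h0 : u.getD 0 false = true) (hdvd : k ∣ kap) (hle : k ≤ kap)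
    (hA : ∀ q, 0 < q → k ∣ q → u.getD q false = false) :
    (∃ B : List (Bool × List Bool), B ≠ [] ∧ (∀ p ∈ B, p.2.length = k) ∧ sB B = pB u B) ↔
      ∃ n, (tstep (k + 1) u)^[n] (u.drop (k + 1)) = [] := by
  have hdrop : k ∣ (u.drop (k + 1)).length := by
    rw [List.length_drop, hlen, show kap + 1 - (k + 1) = kap - k by omega]
    exact Nat.dvd_sub hdvd (dvd_refl k)
  constructor
  · rintro ⟨B, hB0, hB, h⟩
    cases B with
    | nil => exact absurd rfl hB0
    | cons p B =>
      obtain ⟨x, ys⟩ := p
      have hys : ys.length = k := hB (x, ys) List.mem_cons_self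
      have hB' : ∀ q ∈ B, q.2.length = k := fun q hq => hB q (List.mem_cons_of_mem _ hq)
      rw [pB_cons, sB_cons] at h
      simp only at h
      cases x with
      | false =>
        exfalso
        refine no_blocks hk hlen hdvd hA B ys hB' ?_ ?_ ?_
        · rintro rfl
          simp at hys; omega
        · rw [hys]
        · have h4 := congrArg List.tail h
          simpa [prd] using h4
      | true =>
        refine halts_of_blocks hlen hdvd B _ hB' hdrop ?_
        have hprd : prd u true = u := rfl
        rw [hprd] at h
        have h4 := congrArg (List.drop (k + 1)) h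
        rw [List.drop_left' (show (true :: ys).length = k + 1 by rw [List.length_cons, hys]),
          List.drop_append_of_le_length (show k + 1 ≤ u.length by rw [hlen]; omega)] at h4
        exact h4.symm
  · rintro ⟨n, hn⟩
    obtain ⟨B, hB, hB2⟩ := blocks_of_halts hlen hdvd n _ hdrop hn
    cases u with
    | nil => simp at hlen
    | cons a u' =>
      have ha : a = true := by simpa using h0
      subst ha
      refine ⟨(true, u'.take k) :: B, by simp, ?_, ?_⟩
      · intro q hq
        rcases List.mem_cons.1 hq with h3 | h3
        · rw [h3]
          show (u'.take k).length = k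
          rw [List.length_take]
          rw [List.length_cons] at hlen
          omega
        · exact hB q h3
      · rw [pB_cons, sB_cons, ← hB2]
        show (true :: u'.take k) ++ ((true :: u').drop (k + 1) ++ _) = (true :: u') ++ _
        rw [List.drop_succ_cons, ← List.append_assoc, List.cons_append, List.take_append_drop]

end Pool.Agent.Helper231_PCP
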