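import Mathlib
import Pool.Agent.Helper231_PCP.Defs

set_option autoImplicit false

/-! The binary tag process and the machine of events. -/

namespace Pool.Agent.Helper231_PCP

theorem stB_ch_nil (be I : ℕ) : ch be [] I = [] := by simp [ch]

theorem stB_ch_cons (be : ℕ) (x : Bool) (V : List Bool) (I : ℕ) :
    ch be (x :: V) I = (if x = true ∧ I % be = 0 then [I / be] else []) ++ ch be V (I + 1) := by
  have e1 : ch be V (I + 1) = (((List.range V.length).map Nat.succ).filter
      (fun q => (x :: V).getD q false && decide ((I + q) % be = 0))).map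
        (fun q => (I + q) / be) := by
    unfold ch
    rw [List.filter_map, List.map_map]
    have e : ∀ q, I + 1 + q = I + Nat.succ q := fun q => by omega
    have f1 : (fun q => V.getD q false && decide ((I + 1 + q) % be = 0)) =
        ((fun q => (x :: V).getD q false && decide ((I + q) % be = 0)) ∘ Nat.succ) := by
      funext q
      simp only [Function.comp, e q, Nat.succ_eq_add_one, List.getD_cons_succ]
    have f2 : (fun q => (I + 1 + q) / be) = ((fun q => (I + q) / be) ∘ Nat.succ) := by
      funext q
      simp only [Function.comp, e q]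
    rw [f1, f2]
  rw [e1]
  unfold ch
  rw [List.length_cons, List.range_succ_eq_map, List.filter_cons]
  by_cases hx : x = true ∧ I % be = 0
  · rw [if_pos hx, if_pos (by simp [hx.1, hx.2])]
    simp
  · rw [if_neg hx, if_neg (by
      simp only [List.getD_cons_zero, add_zero, Bool.and_eq_true, decide_eq_true_eq]
      exact hx)]
    simp

theorem stB_ch_append (be : ℕ) (A B : List Bool) : ∀ I, ch be (A ++ B) I =
    ch be A I ++ ch be B (I + A.length) := by
  induction A with
  | nil => intro I; simp [stB_ch_nil]
  | cons x V ih =>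
    intro I
    rw [List.cons_append, stB_ch_cons, ih, stB_ch_cons, List.append_assoc, List.length_cons]
    congr 3
    omega

theorem stB_ch_drop (k t : ℕ) : ∀ (m : ℕ) (V : List Bool), m ≤ k →
    ch (k + 1) V (t * (k + 1) + (k + 1 - m)) = ch (k + 1) (V.drop m) ((t + 1) * (k + 1)) := by
  intro m
  induction m with
  | zero =>
    intro V _
    rw [List.drop_zero]
    congr 1
    rw [Nat.sub_zero, add_mul, one_mul]
  | succ m ih =>
    intro V hm
    cases V with
    | nil => simp [stB_ch_nil]
    | cons y V =>
      rw [stB_ch_cons, List.drop_succ_cons, ← ih V (by omega)]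
      have h1 : (t * (k + 1) + (k + 1 - (m + 1))) % (k + 1) ≠ 0 := by
        rw [Nat.mul_comm t (k + 1), Nat.mul_add_mod, Nat.mod_eq_of_lt (by omega)]
        omega
      rw [if_neg (fun h => h1 h.2), List.nil_append]
      congr 1
      omega

theorem stB_ch_step (k t : ℕ) (x : Bool) (V : List Bool) :
    ch (k + 1) (x :: V) (t * (k + 1)) =
      (if x = true then [t] else []) ++ ch (k + 1) (V.drop k) ((t + 1) * (k + 1)) := by
  rw [stB_ch_cons, Nat.mul_mod_left, Nat.mul_div_cancel _ (Nat.succ_pos k)]
  have h := stB_ch_drop k t k V le_rfl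
  have e : k + 1 - k = 1 := by omega
  rw [e] at h
  rw [h]
  simp

theorem stB_step_false (k kap : ℕ) (u V : List Bool) (i t : ℕ) (hk : 2 ≤ k) (hdvd : k ∣ kap)
    (hinv : (false :: V).length + t * k = kap * i) :
    (tstep (k + 1) u (false :: V)).length + (t + 1) * k = kap * i ∧
    (tstep (k + 1) u (false :: V)).length < (false :: V).length ∧
    ch (k + 1) (tstep (k + 1) u (false :: V)) ((t + 1) * (k + 1)) =
      ch (k + 1) (false :: V) (t * (k + 1)) := by
  have hd : k ∣ (false :: V).length := by
    have h1 : k ∣ kap * i := hdvd.mul_right i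
    rw [← hinv] at h1
    exact (Nat.dvd_add_left (Dvd.intro_left t rfl)).1 h1
  have hge : k ≤ (false :: V).length := Nat.le_of_dvd (by simp) hd
  have hl : (tstep (k + 1) u (false :: V)).length = (false :: V).length - k := by
    simp only [tstep, prd, List.length_drop, List.length_append, List.length_cons]
    simp
  refine ⟨?_, ?_, ?_⟩
  · rw [hl, add_mul, one_mul]
    omega
  · rw [hl]
    omega
  · have h1 : tstep (k + 1) u (false :: V) = (V ++ [false]).drop k := by
      simp [tstep, prd]
    rw [h1]
    have h2 := stB_ch_step k t false (V ++ [false])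
    have h3 := stB_ch_append (k + 1) (false :: V) [false] (t * (k + 1))
    rw [List.cons_append] at h3
    rw [h3] at h2
    have h4 : ∀ I, ch (k + 1) [false] I = [] := by
      intro I
      rw [stB_ch_cons, stB_ch_nil]
      simp
    rw [h4, List.append_nil] at h2
    rw [h2]
    simp

theorem stB_step_true (k kap : ℕ) (u V : List Bool) (i t : ℕ) (hlen : u.length = kap + 1)
    (hle : k ≤ kap) (hinv : (true :: V).length + t * k = kap * i) :
    (tstep (k + 1) u (true :: V)).length + (t + 1) * k = kap * (i + 1) ∧
    (∃ L, ch (k + 1) (true :: V) (t * (k + 1)) = t :: L) ∧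
    es (k + 1) kap u (i, ch (k + 1) (true :: V) (t * (k + 1))) =
      (i + 1, ch (k + 1) (tstep (k + 1) u (true :: V)) ((t + 1) * (k + 1))) := by
  refine ⟨?_, ?_, ?_⟩
  · have hl : (tstep (k + 1) u (true :: V)).length = (true :: V).length + kap - k := by
      simp only [tstep, prd, List.length_drop, List.length_append, List.length_cons]
      simp
      omega
    rw [hl, add_mul, one_mul, mul_add, mul_one, ← hinv]
    omega
  · refine ⟨ch (k + 1) (V.drop k) ((t + 1) * (k + 1)), ?_⟩
    rw [stB_ch_step]
    simp
  · have h1 : tstep (k + 1) u (true :: V) = (V ++ u).drop k := by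
      simp [tstep, prd]
    rw [h1]
    have h2 := stB_ch_step k t true (V ++ u)
    have h3 := stB_ch_append (k + 1) (true :: V) u (t * (k + 1))
    rw [List.cons_append] at h3
    rw [h3] at h2
    have h4 := stB_ch_step k t true V
    rw [if_pos rfl] at h2 h4
    rw [h4] at h2 ⊢
    rw [List.append_assoc] at h2
    have h5 := List.append_cancel_left h2
    rw [← h5]
    have h6 : t * (k + 1) + (true :: V).length = t + kap * i := by
      rw [← hinv]
      ring
    rw [h6]
    rfl

theorem stB_fwd (k kap : ℕ) (u : List Bool) (hk : 2 ≤ k) (hlen : u.length = kap + 1)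
    (hdvd : k ∣ kap) (hle : k ≤ kap) (n : ℕ) : ∀ (t i : ℕ) (W : List Bool),
    W.length + t * k = kap * i → (tstep (k + 1) u)^[n] W = [] →
    ∃ m, ((es (k + 1) kap u)^[m] (i, ch (k + 1) W (t * (k + 1)))).2 = [] := by
  induction n with
  | zero =>
    intro t i W _ h
    rw [Function.iterate_zero, id_eq] at h
    rw [h]
    exact ⟨0, by simp [stB_ch_nil]⟩
  | succ n ih =>
    intro t i W hinv h
    rw [Function.iterate_succ_apply] at h
    cases W with
    | nil => exact ⟨0, by simp [stB_ch_nil]⟩
    | cons x V =>
      cases x with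
      | false =>
        obtain ⟨h1, -, h3⟩ := stB_step_false k kap u V i t hk hdvd hinv
        obtain ⟨m, hm⟩ := ih (t + 1) i _ h1 h
        rw [h3] at hm
        exact ⟨m, hm⟩
      | true =>
        obtain ⟨h1, -, h3⟩ := stB_step_true k kap u V i t hlen hle hinv
        obtain ⟨m, hm⟩ := ih (t + 1) (i + 1) _ h1 h
        refine ⟨m + 1, ?_⟩
        rw [Function.iterate_succ_apply, h3]
        exact hm

theorem stB_bwd (k kap : ℕ) (u : List Bool) (hk : 2 ≤ k) (hlen : u.length = kap + 1)
    (hdvd : k ∣ kap) (hle : k ≤ kap) (m : ℕ) : ∀ (N t i : ℕ) (W : List Bool), W.length ≤ N →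
    W.length + t * k = kap * i →
    ((es (k + 1) kap u)^[m] (i, ch (k + 1) W (t * (k + 1)))).2 = [] →
    ∃ n, (tstep (k + 1) u)^[n] W = [] := by
  induction m with
  | zero =>
    intro N
    induction N with
    | zero =>
      intro t i W hN _ _
      exact ⟨0, List.length_eq_zero_iff.1 (Nat.le_zero.1 hN)⟩
    | succ N ihN =>
      intro t i W hN hinv h
      cases W with
      | nil => exact ⟨0, rfl⟩
      | cons x V =>
        cases x with
        | false =>
          obtain ⟨h1, h2, h3⟩ := stB_step_false k kap u V i t hk hdvd hinv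
          obtain ⟨n, hn⟩ := ihN (t + 1) i _ (by omega) h1 (by rw [h3]; exact h)
          exact ⟨n + 1, by rw [Function.iterate_succ_apply]; exact hn⟩
        | true =>
          obtain ⟨-, ⟨L, hL⟩, -⟩ := stB_step_true k kap u V i t hlen hle hinv
          rw [hL] at h
          simp at h
  | succ m ih =>
    intro N
    induction N with
    | zero =>
      intro t i W hN _ _
      exact ⟨0, List.length_eq_zero_iff.1 (Nat.le_zero.1 hN)⟩
    | succ N ihN =>
      intro t i W hN hinv h
      cases W with
      | nil => exact ⟨0, rfl⟩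
      | cons x V =>
        cases x with
        | false =>
          obtain ⟨h1, h2, h3⟩ := stB_step_false k kap u V i t hk hdvd hinv
          obtain ⟨n, hn⟩ := ihN (t + 1) i _ (by omega) h1 (by rw [h3]; exact h)
          exact ⟨n + 1, by rw [Function.iterate_succ_apply]; exact hn⟩
        | true =>
          obtain ⟨h1, -, h3⟩ := stB_step_true k kap u V i t hlen hle hinv
          rw [Function.iterate_succ_apply, h3] at h
          obtain ⟨n, hn⟩ := ih _ (t + 1) (i + 1) _ le_rfl h1 h
          exact ⟨n + 1, by rw [Function.iterate_succ_apply]; exact hn⟩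

/-- TARGET -/
theorem stB (k kap : ℕ) (u : List Bool) (hk : 2 ≤ k) (hlen : u.length = kap + 1)
    (h0 : u.getD 0 false = true) (hdvd : k ∣ kap) (hle : k ≤ kap)
    (hA : ∀ q, 0 < q → k ∣ q → u.getD q false = false) :
    (∃ n, (tstep (k + 1) u)^[n] (u.drop (k + 1)) = []) ↔
      ∃ n, ((es (k + 1) kap u)^[n] (1, (ch (k + 1) u 0).tail)).2 = [] := by
  cases u with
  | nil => simp at hlen
  | cons x V =>
    have hx : x = true := by simpa using h0
    subst hx
    have h1 := stB_ch_step k 0 true V
    rw [zero_mul, zero_add, if_pos rfl] at h1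
    rw [h1, List.drop_succ_cons]
    have hinv : (V.drop k).length + 1 * k = kap * 1 := by
      rw [List.length_drop, one_mul, mul_one]
      rw [List.length_cons] at hlen
      omega
    constructor
    · rintro ⟨n, hn⟩
      exact stB_fwd k kap (true :: V) hk hlen hdvd hle n 1 1 _ hinv hn
    · rintro ⟨m, hm⟩
      exact stB_bwd k kap (true :: V) hk hlen hdvd hle m _ 1 1 _ le_rfl hinv hm

end Pool.Agent.Helper231_PCP
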