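import Mathlib
import Pool.Agent.Helper231_PCP.Defs

set_option autoImplicit false

namespace Pool.Agent.Helper231_PCP

/-! ## general list facts -/

theorem eq_of_sorted_mem {l1 l2 : List ℕ} (h1 : l1.Pairwise (· < ·)) (h2 : l2.Pairwise (· < ·))
    (h : ∀ x, x ∈ l1 ↔ x ∈ l2) : l1 = l2 := by
  have n1 : l1.Nodup := h1.imp (fun hab => Nat.ne_of_lt hab)
  have n2 : l2.Nodup := h2.imp (fun hab => Nat.ne_of_lt hab)
  have hp : l1.Perm l2 := (List.perm_ext_iff_of_nodup n1 n2).2 h
  exact hp.eq_of_pairwise (fun a b _ _ h1 h2 => absurd h1 (Nat.lt_asymm h2)) h1 h2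

theorem ch_sorted (be : ℕ) (hbe : 0 < be) (u : List Bool) (I : ℕ) :
    (ch be u I).Pairwise (· < ·) := by
  unfold ch
  rw [List.pairwise_map, List.pairwise_filter]
  refine List.pairwise_lt_range.imp ?_
  intro a b hab ha hb
  simp only [Bool.and_eq_true, decide_eq_true_eq] at ha hb
  have h1 := Nat.div_add_mod (I + a) be
  have h2 := Nat.div_add_mod (I + b) be
  rw [ha.2] at h1
  rw [hb.2] at h2
  by_contra hcon
  have : (I + b) / be ≤ (I + a) / be := by omega
  have := Nat.mul_le_mul_left be this
  omega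

theorem mem_ch (be : ℕ) (hbe : 0 < be) (u : List Bool) (I t : ℕ) :
    t ∈ ch be u I ↔ ∃ q, u.getD q false = true ∧ be * t = I + q := by
  unfold ch
  rw [List.mem_map]
  constructor
  · rintro ⟨q, hq, rfl⟩
    rw [List.mem_filter] at hq
    simp only [Bool.and_eq_true, decide_eq_true_eq] at hq
    refine ⟨q, hq.2.1, ?_⟩
    have h1 := Nat.div_add_mod (I + q) be
    rw [hq.2.2] at h1
    omega
  · rintro ⟨q, hq, h⟩
    refine ⟨q, ?_, ?_⟩
    · rw [List.mem_filter]
      refine ⟨?_, ?_⟩
      · rw [List.mem_range]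
        by_contra hcon
        rw [List.getD_eq_default _ _ (by omega)] at hq
        exact absurd hq (by simp)
      · simp only [Bool.and_eq_true, decide_eq_true_eq]
        refine ⟨hq, ?_⟩
        rw [← h]
        exact Nat.mul_mod_right _ _
    · rw [← h]
      exact Nat.mul_div_cancel_left _ hbe

/-- processing a list of events -/
theorem es_list (be kap : ℕ) (u : List Bool) (T : List ℕ) : ∀ (i : ℕ) (R : List ℕ),
    (es be kap u)^[T.length] (i, T ++ R) =
      (i + T.length, R ++ (T.zipIdx i).flatMap (fun p => ch be u (p.1 + kap * p.2))) := by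
  induction T with
  | nil => intro i R; simp
  | cons t T ih =>
    intro i R
    rw [List.length_cons, Function.iterate_succ_apply]
    have : es be kap u (i, t :: T ++ R) = (i + 1, T ++ (R ++ ch be u (t + kap * i))) := by
      simp [es]
    rw [this, ih]
    simp only [List.zipIdx_cons, List.flatMap_cons, List.append_assoc]
    congr 1
    omega

/-- processing the events with times `g 0, .., g (h-1)` -/
theorem es_range (be kap : ℕ) (u : List Bool) (h : ℕ) (g : ℕ → ℕ) (i : ℕ) (R : List ℕ) :
    (es be kap u)^[h] (i, (List.range h).map g ++ R) =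
      (i + h, R ++ (List.range h).flatMap (fun n => ch be u (g n + kap * (i + n)))) := by
  have := es_list be kap u ((List.range h).map g) i R
  rw [List.length_map, List.length_range] at this
  rw [this]
  congr 2
  have key : ((List.range h).map g).zipIdx i = (List.range h).map (fun n => (g n, i + n)) := by
    apply List.ext_getElem
    · simp
    · intro n h1 h2
      simp
  rw [key, List.flatMap_map]

theorem flat_mult (B : ℕ) (hB : 0 < B) (F : ℕ → List ℕ) (c : ℕ) : ∀ h, (∀ j < c, j * B < h) →
    (List.range h).flatMap (fun n => if n % B = 0 ∧ n / B < c then F (n / B) else []) =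
      (List.range c).flatMap F := by
  induction c with
  | zero => intro h _; simp
  | succ c ih =>
    intro h hh
    have hc := hh c (by omega)
    obtain ⟨h', rfl⟩ : ∃ h', h = c * B + (1 + h') := ⟨h - c * B - 1, by omega⟩
    rw [List.range_add, List.flatMap_append, List.range_add (n := 1), List.map_append,
      List.flatMap_append, List.range_succ (n := c), List.flatMap_append]
    have e1 : (List.range (c * B)).flatMap
        (fun n => if n % B = 0 ∧ n / B < c + 1 then F (n / B) else []) =
        (List.range c).flatMap F := by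
      rw [← ih (c * B) (fun j hj => by nlinarith)]
      apply List.flatMap_congr
      intro n hn
      rw [List.mem_range] at hn
      have : n / B < c := by
        rw [Nat.div_lt_iff_lt_mul hB]; exact hn
      have h2 : n / B < c + 1 := by omega
      simp [this, h2]
    have e2 : (List.map (fun x => c * B + x) (List.range 1)).flatMap
        (fun n => if n % B = 0 ∧ n / B < c + 1 then F (n / B) else []) = F c := by
      simp [Nat.mul_div_cancel _ hB]
    have e3 : (List.map (fun x => c * B + x) (List.map (fun x => 1 + x) (List.range h'))).flatMap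
        (fun n => if n % B = 0 ∧ n / B < c + 1 then F (n / B) else []) = [] := by
      rw [List.flatMap_eq_nil_iff]
      intro n hn
      rw [if_neg]
      rintro ⟨h1, h2⟩
      simp only [List.map_map, List.mem_map, List.mem_range, Function.comp] at hn
      obtain ⟨x, _, rfl⟩ := hn
      have h3 := Nat.div_add_mod (c * B + (1 + x)) B
      rw [h1] at h3
      have : (c * B + (1 + x)) / B ≤ c := by omega
      have := Nat.mul_le_mul_left B this
      rw [Nat.mul_comm B c] at this
      omega
    rw [e1, e2, e3]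
    simp

/-! ## parameters -/

section params

variable {P K : ℕ} {tb : List (List ℕ)} {cb w0 : List ℕ}

theorem b1_pos : 4 ≤ b1 K tb := by unfold b1; omega

theorem be_eq (hP : 2 ≤ P) : be P K tb = kk P K tb + 1 := by
  unfold kk
  have : 4 ≤ b1 K tb := b1_pos
  have : 8 ≤ be P K tb := by
    unfold be
    nlinarith
  omega

theorem kk_ge (hP : 2 ≤ P) : 7 ≤ kk P K tb := by
  unfold kk
  have : 4 ≤ b1 K tb := b1_pos
  have : 8 ≤ be P K tb := by
    unfold be
    nlinarith
  omega

theorem be_ge (hP : 2 ≤ P) : 8 ≤ be P K tb := by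
  have := kk_ge (K := K) (tb := tb) hP
  rw [be_eq hP]; omega

/-- `kap = be * Z + 1` -/
theorem kap_eq (hP : 2 ≤ P) : kap P K tb =
    be P K tb * (kk P K tb * mu P K tb + (kk P K tb - 1)) + 1 := by
  have h1 := be_eq (K := K) (tb := tb) hP
  have h2 := kk_ge (K := K) (tb := tb) hP
  unfold kap
  rw [h1]
  obtain ⟨k, hk⟩ : ∃ k, kk P K tb = k + 1 := ⟨kk P K tb - 1, by omega⟩
  rw [hk]
  simp only [Nat.add_sub_cancel]
  ring

theorem xx_eq (hP : 2 ≤ P) (n lam : ℕ) :
    xx P K tb n lam + n + lam = be P K tb * (be P K tb * n + lam) := by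
  have h1 := be_eq (K := K) (tb := tb) hP
  unfold xx
  rw [h1]
  ring

theorem tau_eq (c : ℕ) :
    tau P K tb c = be P K tb * (3 * (K + 1) * kk P K tb + c) := by
  unfold tau
  ring

/-- residue of the position of an event -/
theorem pos_eq (hP : 2 ≤ P) (c J n lam : ℕ) : ∃ Y,
    tau P K tb c + xx P K tb n lam + kap P K tb * (J + n) + lam = be P K tb * Y + J := by
  have h1 := kap_eq (K := K) (tb := tb) hP
  have h2 := xx_eq (K := K) (tb := tb) hP n lam
  have h3 := tau_eq (P := P) (K := K) (tb := tb) c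
  rw [h1, h3]
  refine ⟨(3 * (K + 1) * kk P K tb + c) + (be P K tb * n + lam) +
    (kk P K tb * mu P K tb + (kk P K tb - 1)) * (J + n), ?_⟩
  generalize (kk P K tb * mu P K tb + (kk P K tb - 1)) = Z at *
  generalize (3 * (K + 1) * kk P K tb + c) = T at *
  generalize be P K tb = B at *
  have : B * (T + (B * n + lam) + Z * (J + n)) + J =
    B * T + (B * (B * n + lam)) + B * Z * (J + n) + J := by ring
  rw [this, ← h2]
  ring

theorem xx_lt (hP : 2 ≤ P) {n n' lam lam' : ℕ} (hn : n < n') (hl : lam ≤ be P K tb) :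
    xx P K tb n lam < xx P K tb n' lam' := by
  unfold xx
  have h2 := kk_ge (K := K) (tb := tb) hP
  have : (be P K tb + 1) * n + lam < (be P K tb + 1) * n' + lam' := by nlinarith
  exact Nat.mul_lt_mul_of_pos_left this (by omega)

theorem xx_le {n n' lam lam' : ℕ} (hn : n ≤ n') (hl : lam ≤ lam') :
    xx P K tb n lam ≤ xx P K tb n' lam' := by
  unfold xx
  gcongr

theorem tau_le {c : ℕ} (hc : c ≤ 1) : tau P K tb c ≤ tau P K tb 1 := by
  unfold tau
  gcongr

/-- sizes -/
theorem kap_ge (hP : 2 ≤ P) {c n lam : ℕ} (hc : c ≤ 1) (hn : n ≤ (K + 1) * be P K tb)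
    (hl : lam ≤ be P K tb) :
    be P K tb * (tau P K tb c + xx P K tb n lam) ≤ kap P K tb := by
  have h1 : tau P K tb c + xx P K tb n lam ≤ mu P K tb := by
    unfold mu
    exact Nat.add_le_add (tau_le hc) (xx_le hn hl)
  have h2 := kk_ge (K := K) (tb := tb) hP
  unfold kap
  calc be P K tb * (tau P K tb c + xx P K tb n lam) ≤ be P K tb * mu P K tb :=
        Nat.mul_le_mul_left _ h1
    _ ≤ be P K tb * mu P K tb + kk P K tb := Nat.le_add_right _ _
    _ ≤ kk P K tb * (be P K tb * mu P K tb + kk P K tb) := Nat.le_mul_of_pos_left _ (by omega)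

theorem CC_le (hP : 2 ≤ P) : CC P K tb ≤ (K + 1) * be P K tb := by
  unfold CC DD be
  have : 4 ≤ b1 K tb := b1_pos
  nlinarith

theorem CC_eq : CC P K tb = be P K tb * K + b1 K tb := by
  unfold CC DD be
  ring

theorem CC_gt (hP : 2 ≤ P) : DD P K + (K - 1) * be P K tb < CC P K tb := by
  unfold CC DD be
  have h4 : (tb.length + 2) * K + 4 = b1 K tb := rfl
  have h5 : 2 * K ≤ (tb.length + 2) * K := Nat.mul_le_mul_right _ (by omega)
  generalize b1 K tb = b at *
  rcases K with _ | K
  · simp; nlinarith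
  · simp only [Nat.add_sub_cancel]
    have h6 : 2 * K + 6 ≤ b := by omega
    nlinarith

/-- the parent offset is smaller than the position of the children -/
theorem off_lt (hP : 2 ≤ P) {c c' n lam n' lam' : ℕ} (hc : c ≤ 1) (hn : n ≤ K * be P K tb)
    (hl : lam ≤ be P K tb) :
    tau P K tb c + xx P K tb n lam < be P K tb * (tau P K tb c' + xx P K tb n' lam') := by
  have h1 := be_eq (K := K) (tb := tb) hP
  have h2 := kk_ge (K := K) (tb := tb) hP
  have h3 : xx P K tb n lam ≤ xx P K tb (K * be P K tb) (be P K tb) := xx_le hn hl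
  have h4 := tau_le (P := P) (K := K) (tb := tb) hc
  have h5 : tau P K tb 0 ≤ tau P K tb c' + xx P K tb n' lam' := by
    have : tau P K tb 0 ≤ tau P K tb c' := by unfold tau; gcongr; omega
    omega
  have h6 : tau P K tb 1 + xx P K tb (K * be P K tb) (be P K tb) <
      be P K tb * tau P K tb 0 := by
    unfold tau xx
    rw [h1]
    generalize kk P K tb = k at *
    have e1 : (k + 1) * (3 * (K + 1) * (k + 1) * k + 0 * (k + 1)) =
        3 * (K + 1) * (k + 1) * k + k * (3 * (K + 1) * (k + 1) * k) := by ring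
    have e2 : k * ((k + 1 + 1) * (K * (k + 1)) + (k + 1)) = k * ((k + 1) * ((k + 2) * K + 1)) := by
      ring
    rw [e1, e2]
    have e3 : k * ((k + 1) * ((k + 2) * K + 1)) + 1 * (k + 1) <
        k * (3 * (K + 1) * (k + 1) * k) := by
      have e4 : k * (3 * (K + 1) * (k + 1) * k) = k * ((k + 1) * (3 * (K + 1) * k)) := by ring
      rw [e4]
      have e5 : (k + 2) * K + 1 + 1 ≤ 3 * (K + 1) * k := by nlinarith
      have e6 : k * ((k + 1) * ((k + 2) * K + 1 + 1)) ≤ k * ((k + 1) * (3 * (K + 1) * k)) := by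
        gcongr
      have e7 : k * ((k + 1) * ((k + 2) * K + 1 + 1)) =
        k * ((k + 1) * ((k + 2) * K + 1)) + k * (k + 1) := by ring
      have e8 : 1 * (k + 1) < k * (k + 1) := by nlinarith
      omega
    omega
  calc tau P K tb c + xx P K tb n lam ≤
        tau P K tb 1 + xx P K tb (K * be P K tb) (be P K tb) := Nat.add_le_add h4 h3
    _ < be P K tb * tau P K tb 0 := h6
    _ ≤ be P K tb * (tau P K tb c' + xx P K tb n' lam') := Nat.mul_le_mul_left _ h5

/-! ## residues -/

theorem mem_Ql (q : ℕ) : q ∈ Ql P K tb cb w0 ↔ q = 0 ∨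
    (∃ n < (w0.length + 1) * be P K tb - 2,
      q = be P K tb * (tau P K tb 1 + xx P K tb (n + 1) (cs P K tb w0 (n + 1)))) ∨
    (∃ l < tb.length, ∃ j < (al tb l).length, q ∈ row P K tb cb l j) ∨
    (∃ j < w0.length, q ∈ rowS P K tb cb w0 j) := by
  unfold Ql
  simp only [List.mem_cons, List.mem_append, List.mem_flatMap, List.mem_range, scl, List.map_map,
    List.mem_map, Function.comp]
  constructor
  · rintro (h | ⟨n, hn, h⟩ | h | h)
    · exact Or.inl h
    · exact Or.inr (Or.inl ⟨n, hn, h.symm⟩)
    · exact Or.inr (Or.inr (Or.inl h))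
    · exact Or.inr (Or.inr (Or.inr h))
  · rintro (h | ⟨n, hn, h⟩ | h | h)
    · exact Or.inl h
    · exact Or.inr (Or.inl ⟨n, hn, h.symm⟩)
    · exact Or.inr (Or.inr (Or.inl h))
    · exact Or.inr (Or.inr (Or.inr h))

theorem b1_le_be (hP : 2 ≤ P) : b1 K tb ≤ be P K tb := by
  unfold be
  exact Nat.le_mul_of_pos_left _ (by omega)

theorem lab_lt {l j : ℕ} (hl : l ≤ tb.length) (hj : j ≤ K) : lab K l j < b1 K tb := by
  unfold lab b1
  have : l * K ≤ tb.length * K := Nat.mul_le_mul_right _ hl
  have e : (tb.length + 2) * K = tb.length * K + 2 * K := by ring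
  omega

theorem lab_inj {l j l' j' : ℕ} (hj : j < K) (hj' : j' < K) (h : lab K l j = lab K l' j') :
    l = l' ∧ j = j' := by
  unfold lab at h
  have h' : j + K * l = j' + K * l' := by
    rw [Nat.mul_comm K l, Nat.mul_comm K l']; omega
  have h1 : (j + K * l) / K = l := by
    rw [Nat.add_mul_div_left _ _ (by omega), Nat.div_eq_of_lt hj]; omega
  have h2 : (j' + K * l') / K = l' := by
    rw [Nat.add_mul_div_left _ _ (by omega), Nat.div_eq_of_lt hj']; omega
  have h3 : l = l' := by rw [← h1, ← h2, h']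
  subst h3
  exact ⟨rfl, by omega⟩

/-- residue of an offset of a row -/
theorem res_row (hP : 2 ≤ P) {q c m lam T : ℕ} (hl : lam < be P K tb)
    (h : q + (tau P K tb c + xx P K tb (m * be P K tb) lam) = be P K tb * T) :
    q % be P K tb = lam := by
  have h1 := xx_eq (K := K) (tb := tb) hP (m * be P K tb) lam
  have h2 := tau_eq (P := P) (K := K) (tb := tb) c
  generalize be P K tb = B at *
  generalize xx P K tb (m * B) lam = x at *
  generalize tau P K tb c = t at *
  generalize (3 * (K + 1) * kk P K tb + c) = s at *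
  have h3 : q + B * (s + (B * (m * B) + lam)) = lam + B * (T + m) := by
    have : B * (s + (B * (m * B) + lam)) = B * s + B * (B * (m * B) + lam) := by ring
    rw [this, ← h1]
    have : lam + B * (T + m) = lam + B * T + m * B := by ring
    rw [this]
    omega
  have h4 : (q + B * (s + (B * (m * B) + lam))) % B = (lam + B * (T + m)) % B := by rw [h3]
  rw [Nat.add_mul_mod_self_left, Nat.add_mul_mod_self_left, Nat.mod_eq_of_lt hl] at h4
  exact h4

theorem mem_row (hP : 2 ≤ P) (ha : Adm tb cb) (hK : ∀ w ∈ tb, w.length ≤ K) {l j : ℕ}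
    (hl : l < tb.length) (hj : j < (al tb l).length) (q : ℕ) :
    q ∈ row P K tb cb l j ↔ ∃ n < CC P K tb - Ln P K tb l j,
      q + (tau P K tb (co cb l) + xx P K tb (j * be P K tb) (lab K l j)) =
        be P K tb * (tau P K tb (co cb ((al tb l).getD j 0)) +
          xx P K tb n (cl P K tb ((al tb l).getD j 0) n)) := by
  have hjK : j < K := by
    have : al tb l ∈ tb := by
      unfold al; rw [List.getD_eq_getElem _ _ hl]; exact List.getElem_mem _
    exact lt_of_lt_of_le hj (hK _ this)
  have hlt := lab_lt (K := K) (tb := tb) (l := l) (j := j) hl.le hjK.le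
  have hbb := b1_le_be (K := K) (tb := tb) hP
  unfold row
  simp only [List.mem_map, List.mem_range]
  constructor
  · rintro ⟨n, hn, rfl⟩
    refine ⟨n, hn, Nat.sub_add_cancel (le_of_lt ?_)⟩
    exact off_lt hP (ha.h1 l) (Nat.mul_le_mul_right _ hjK.le) (by omega)
  · rintro ⟨n, hn, h⟩
    exact ⟨n, hn, by omega⟩

theorem mem_rowS (hP : 2 ≤ P) (hwK : w0.length < K) {j : ℕ} (hj : j < w0.length) (q : ℕ) :
    q ∈ rowS P K tb cb w0 j ↔ ∃ n < CC P K tb - 1,
      q + (tau P K tb 1 + xx P K tb ((j + 1) * be P K tb) (lab K tb.length (j + 1))) =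
        be P K tb * (tau P K tb (co cb (w0.getD j 0)) +
          xx P K tb n (cl P K tb (w0.getD j 0) n)) := by
  have hlt := lab_lt (K := K) (tb := tb) (l := tb.length) (j := j + 1) le_rfl (by omega)
  have hbb := b1_le_be (K := K) (tb := tb) hP
  unfold rowS
  simp only [List.mem_map, List.mem_range]
  constructor
  · rintro ⟨n, hn, rfl⟩
    refine ⟨n, hn, Nat.sub_add_cancel (le_of_lt ?_)⟩
    exact off_lt hP le_rfl (Nat.mul_le_mul_right _ (by omega)) (by omega)
  · rintro ⟨n, hn, h⟩
    exact ⟨n, hn, by omega⟩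

theorem al_len_le (hK : ∀ w ∈ tb, w.length ≤ K) (l : ℕ) : (al tb l).length ≤ K := by
  unfold al
  by_cases h : l < tb.length
  · rw [List.getD_eq_getElem _ _ h]; exact hK _ (List.getElem_mem _)
  · rw [List.getD_eq_default _ _ (by omega)]; simp

theorem al_ge {l : ℕ} (hl : tb.length ≤ l) : al tb l = [] := by
  unfold al
  rw [List.getD_eq_default _ _ hl]

theorem row_mod (hP : 2 ≤ P) (ha : Adm tb cb) (hK : ∀ w ∈ tb, w.length ≤ K) {l j q : ℕ}
    (hl : l < tb.length) (hj : j < (al tb l).length) (hq : q ∈ row P K tb cb l j) :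
    q % be P K tb = lab K l j := by
  obtain ⟨n, _, h⟩ := (mem_row hP ha hK hl hj q).1 hq
  have hlt := lab_lt (K := K) (tb := tb) (l := l) (j := j) hl.le
    (hj.le.trans (al_len_le hK l))
  exact res_row hP (lt_of_lt_of_le hlt (b1_le_be hP)) h

theorem rowS_mod (hP : 2 ≤ P) (hwK : w0.length < K) {j q : ℕ} (hj : j < w0.length)
    (hq : q ∈ rowS P K tb cb w0 j) : q % be P K tb = lab K tb.length (j + 1) := by
  obtain ⟨n, _, h⟩ := (mem_rowS hP hwK hj q).1 hq
  have hlt := lab_lt (K := K) (tb := tb) (l := tb.length) (j := j + 1) le_rfl (by omega)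
  exact res_row hP (lt_of_lt_of_le hlt (b1_le_be hP)) h

/-- comparison of residues -/
theorem lab_match (hP : 2 ≤ P) {I J lam q Y t : ℕ} (hI : I + lam = be P K tb * Y + J)
    (hJ : b1 K tb ∣ J) (hl : lam < b1 K tb) (hq : q % be P K tb < b1 K tb)
    (ht : be P K tb * t = I + q) : q % be P K tb = lam ∧ be P K tb ∣ J := by
  have hB : be P K tb = P * b1 K tb := rfl
  have hq1 := Nat.div_add_mod q (be P K tb)
  generalize q % be P K tb = r at *
  generalize q / be P K tb = d at *
  have h1 : be P K tb * t + lam = be P K tb * (Y + d) + J + r := by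
    rw [ht, ← hq1, Nat.mul_add]
    omega
  obtain ⟨J', rfl⟩ := hJ
  have h2 : lam % b1 K tb = r % b1 K tb := by
    have e1 : (lam + b1 K tb * (P * t)) % b1 K tb = lam % b1 K tb := Nat.add_mul_mod_self_left _ _ _
    have e2 : (r + b1 K tb * (P * (Y + d) + J')) % b1 K tb = r % b1 K tb :=
      Nat.add_mul_mod_self_left _ _ _
    rw [← e1, ← e2]
    congr 1
    rw [hB] at h1
    have e3 : lam + b1 K tb * (P * t) = P * b1 K tb * t + lam := by ring
    have e4 : r + b1 K tb * (P * (Y + d) + J') = P * b1 K tb * (Y + d) + b1 K tb * J' + r := by ring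
    rw [e3, e4, h1]
  rw [Nat.mod_eq_of_lt hl, Nat.mod_eq_of_lt hq] at h2
  subst h2
  refine ⟨rfl, ?_⟩
  have h3 : be P K tb * t = be P K tb * (Y + d) + b1 K tb * J' := by omega
  exact (Nat.dvd_add_right (Dvd.intro _ rfl)).1 (h3 ▸ Dvd.intro _ rfl)

theorem Ql_res (hP : 2 ≤ P) (ha : Adm tb cb) (hK : ∀ w ∈ tb, w.length ≤ K)
    (hwK : w0.length < K) {q : ℕ} (hq : q ∈ Ql P K tb cb w0) :
    q % be P K tb < b1 K tb ∧ q % be P K tb ≠ 1 := by
  have h4 : 4 ≤ b1 K tb := b1_pos
  rcases (mem_Ql q).1 hq with rfl | ⟨n, _, rfl⟩ | ⟨l, hl, j, hj, h⟩ | ⟨j, hj, h⟩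
  · simp; omega
  · simp; omega
  · rw [row_mod hP ha hK hl hj h]
    refine ⟨lab_lt hl.le (hj.le.trans (al_len_le hK l)), ?_⟩
    unfold lab; omega
  · rw [rowS_mod hP hwK hj h]
    refine ⟨lab_lt le_rfl (by omega), ?_⟩
    unfold lab; omega

theorem Ql_le (hP : 2 ≤ P) (ha : Adm tb cb) (hK : ∀ w ∈ tb, w.length ≤ K)
    (hwK : w0.length < K) {q : ℕ} (hq : q ∈ Ql P K tb cb w0) : q ≤ kap P K tb := by
  have hbb := b1_le_be (K := K) (tb := tb) hP
  have hB8 := be_ge (K := K) (tb := tb) hP
  have hCC := CC_le (K := K) (tb := tb) hP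
  have hcl : ∀ l n, cl P K tb l n ≤ be P K tb := by
    intro l n
    unfold cl
    split_ifs with h
    · have hl : l < tb.length := by
        by_contra hcon
        rw [al_ge (by omega)] at h
        simp at h
      have := lab_lt (K := K) (tb := tb) (l := l) (j := n / be P K tb) hl.le
        (h.2.le.trans (al_len_le hK l))
      omega
    · omega
  rcases (mem_Ql q).1 hq with rfl | ⟨n, hn, rfl⟩ | ⟨l, hl, j, hj, h⟩ | ⟨j, hj, h⟩
  · exact Nat.zero_le _
  · apply kap_ge hP le_rfl
    · have : (w0.length + 1) * be P K tb ≤ (K + 1) * be P K tb :=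
        Nat.mul_le_mul_right _ (by omega)
      omega
    · unfold cs
      split_ifs with h
      · have := lab_lt (K := K) (tb := tb) (l := tb.length) (j := (n + 1) / be P K tb) le_rfl
          (by omega)
        omega
      · omega
  · obtain ⟨n, hn, h⟩ := (mem_row hP ha hK hl hj q).1 h
    have := kap_ge (K := K) (tb := tb) hP (ha.h1 ((al tb l).getD j 0)) (n := n) (by omega)
      (hcl ((al tb l).getD j 0) n)
    omega
  · obtain ⟨n, hn, h⟩ := (mem_rowS hP hwK hj q).1 h
    have := kap_ge (K := K) (tb := tb) hP (ha.h1 (w0.getD j 0)) (n := n) (by omega)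
      (hcl (w0.getD j 0) n)
    omega

theorem uu_getD (hP : 2 ≤ P) (ha : Adm tb cb) (hK : ∀ w ∈ tb, w.length ≤ K)
    (hwK : w0.length < K) (q : ℕ) :
    (uu P K tb cb w0).getD q false = true ↔ q ∈ Ql P K tb cb w0 := by
  have hlen : (uu P K tb cb w0).length = kap P K tb + 1 := by simp [uu]
  constructor
  · intro h
    have hq : q < kap P K tb + 1 := by
      by_contra hcon
      rw [List.getD_eq_default _ _ (by omega)] at h
      exact absurd h (by simp)
    rw [List.getD_eq_getElem _ _ (by omega)] at h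
    simpa [uu] using h
  · intro h
    have hq := Ql_le hP ha hK hwK h
    rw [List.getD_eq_getElem _ _ (by omega)]
    simpa [uu] using h

theorem ch_dead (hP : 2 ≤ P) (ha : Adm tb cb) (hK : ∀ w ∈ tb, w.length ≤ K)
    (hwK : w0.length < K) {I J lam Y : ℕ} (hI : I + lam = be P K tb * Y + J)
    (hJ : b1 K tb ∣ J) (hl : lam < b1 K tb) (h : lam = 1 ∨ ¬ be P K tb ∣ J) :
    ch (be P K tb) (uu P K tb cb w0) I = [] := by
  have hB8 := be_ge (K := K) (tb := tb) hP
  rw [List.eq_nil_iff_forall_not_mem]
  intro t ht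
  rw [mem_ch _ (by omega)] at ht
  obtain ⟨q, hq, ht⟩ := ht
  rw [uu_getD hP ha hK hwK] at hq
  obtain ⟨h1, h2⟩ := Ql_res hP ha hK hwK hq
  obtain ⟨h3, h4⟩ := lab_match hP hI hJ hl h1 ht
  rcases h with h | h
  · omega
  · exact h h4

theorem clu_sorted (hP : 2 ≤ P) (hK : ∀ w ∈ tb, w.length ≤ K) (l L a : ℕ) :
    (clu P K tb cb l L a).Pairwise (· < ·) := by
  have hbb := b1_le_be (K := K) (tb := tb) hP
  have hB8 := be_ge (K := K) (tb := tb) hP
  unfold clu
  rw [List.pairwise_map]
  refine List.pairwise_lt_range.imp ?_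
  intro n n' hn
  have : cl P K tb l n ≤ be P K tb := by
    unfold cl
    split_ifs with h
    · have hl : l < tb.length := by
        by_contra hcon
        rw [al_ge (by omega)] at h
        simp at h
      have := lab_lt (K := K) (tb := tb) (l := l) (j := n / be P K tb) hl.le
        (h.2.le.trans (al_len_le hK l))
      omega
    · omega
  have := xx_lt (K := K) (tb := tb) hP (lam' := cl P K tb l n') hn this
  omega

theorem ch_live (hP : 2 ≤ P) (ha : Adm tb cb) (hK : ∀ w ∈ tb, w.length ≤ K)
    (hwK : w0.length < K) {l j b : ℕ} (hl : l < tb.length) (hj : j < (al tb l).length) :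
    ch (be P K tb) (uu P K tb cb w0)
      (tau P K tb (co cb l) + xx P K tb (j * be P K tb) (lab K l j) +
        kap P K tb * (be P K tb * b + j * be P K tb)) =
      clu P K tb cb ((al tb l).getD j 0) (Ln P K tb l j) (b + j) := by
  have hB8 := be_ge (K := K) (tb := tb) hP
  have hlt := lab_lt (K := K) (tb := tb) (l := l) (j := j) hl.le
    (hj.le.trans (al_len_le hK l))
  obtain ⟨Y, hY⟩ := pos_eq (K := K) (tb := tb) hP (co cb l) (be P K tb * b) (j * be P K tb)
    (lab K l j)
  apply eq_of_sorted_mem (ch_sorted _ (by omega) _ _) (clu_sorted hP hK _ _ _)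
  intro t
  rw [mem_ch _ (by omega)]
  constructor
  · rintro ⟨q, hq, ht⟩
    rw [uu_getD hP ha hK hwK] at hq
    have h1 := Ql_res hP ha hK hwK hq
    obtain ⟨h2, _⟩ := lab_match hP hY (Dvd.dvd.mul_right (Dvd.intro_left P rfl) b) hlt h1.1 ht
    have h3 : q ∈ row P K tb cb l j := by
      rcases (mem_Ql q).1 hq with rfl | ⟨n, _, rfl⟩ | ⟨l', hl', j', hj', h⟩ | ⟨j', hj', h⟩
      · exfalso; unfold lab at h2; simp at h2; omega
      · exfalso; unfold lab at h2; simp at h2; omega
      · have h3 := row_mod hP ha hK hl' hj' h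
        rw [h2] at h3
        obtain ⟨rfl, rfl⟩ := lab_inj (lt_of_lt_of_le hj (al_len_le hK l))
          (lt_of_lt_of_le hj' (al_len_le hK l')) h3
        exact h
      · exfalso
        have h3 := rowS_mod hP hwK hj' h
        rw [h2] at h3
        obtain ⟨h4, _⟩ := lab_inj (lt_of_lt_of_le hj (al_len_le hK l)) (by omega) h3
        omega
    obtain ⟨n, hn, h4⟩ := (mem_row hP ha hK hl hj q).1 h3
    unfold clu
    rw [List.mem_map]
    refine ⟨n, List.mem_range.2 hn, ?_⟩
    have h5 : be P K tb * t = be P K tb *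
        (tau P K tb (co cb ((al tb l).getD j 0)) + kap P K tb * (b + j) +
          xx P K tb n (cl P K tb ((al tb l).getD j 0) n)) := by
      rw [ht]
      have e : be P K tb *
        (tau P K tb (co cb ((al tb l).getD j 0)) + kap P K tb * (b + j) +
          xx P K tb n (cl P K tb ((al tb l).getD j 0) n)) =
        be P K tb * (tau P K tb (co cb ((al tb l).getD j 0)) +
          xx P K tb n (cl P K tb ((al tb l).getD j 0) n)) +
        kap P K tb * (be P K tb * b + j * be P K tb) := by ring
      rw [e, ← h4]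
      ring
    exact (Nat.eq_of_mul_eq_mul_left (by omega) h5).symm
  · intro ht
    unfold clu at ht
    rw [List.mem_map] at ht
    obtain ⟨n, hn, rfl⟩ := ht
    rw [List.mem_range] at hn
    obtain ⟨q, hq⟩ : ∃ q, q = be P K tb * (tau P K tb (co cb ((al tb l).getD j 0)) +
        xx P K tb n (cl P K tb ((al tb l).getD j 0) n)) -
      (tau P K tb (co cb l) + xx P K tb (j * be P K tb) (lab K l j)) := ⟨_, rfl⟩
    have hrow : q ∈ row P K tb cb l j := by
      unfold row
      rw [List.mem_map]
      exact ⟨n, List.mem_range.2 hn, hq.symm⟩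
    refine ⟨q, ?_, ?_⟩
    · rw [uu_getD hP ha hK hwK, mem_Ql]
      exact Or.inr (Or.inr (Or.inl ⟨l, hl, j, hj, hrow⟩))
    · obtain ⟨n', hn', h4⟩ := (mem_row hP ha hK hl hj q).1 hrow
      have hlt2 := off_lt (K := K) (tb := tb) hP (ha.h1 l) (c' := co cb ((al tb l).getD j 0))
        (n' := n) (lam' := cl P K tb ((al tb l).getD j 0) n) (n := j * be P K tb)
        (lam := lab K l j)
        (Nat.mul_le_mul_right _ (hj.le.trans (al_len_le hK l)))
        (hlt.le.trans (b1_le_be hP))
      have h5 : q + (tau P K tb (co cb l) + xx P K tb (j * be P K tb) (lab K l j)) =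
        be P K tb * (tau P K tb (co cb ((al tb l).getD j 0)) +
          xx P K tb n (cl P K tb ((al tb l).getD j 0) n)) := by omega
      have e : be P K tb *
        (tau P K tb (co cb ((al tb l).getD j 0)) + kap P K tb * (b + j) +
          xx P K tb n (cl P K tb ((al tb l).getD j 0) n)) =
        be P K tb * (tau P K tb (co cb ((al tb l).getD j 0)) +
          xx P K tb n (cl P K tb ((al tb l).getD j 0) n)) +
        kap P K tb * (be P K tb * b + j * be P K tb) := by ring
      rw [e, ← h5]
      ring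

theorem ch_liveS (hP : 2 ≤ P) (ha : Adm tb cb) (hK : ∀ w ∈ tb, w.length ≤ K)
    (hwK : w0.length < K) {j : ℕ} (hj : j < w0.length) :
    ch (be P K tb) (uu P K tb cb w0)
      (tau P K tb 1 + xx P K tb ((j + 1) * be P K tb) (lab K tb.length (j + 1)) +
        kap P K tb * ((j + 1) * be P K tb)) =
      clu P K tb cb (w0.getD j 0) 1 (j + 1) := by
  have hB8 := be_ge (K := K) (tb := tb) hP
  have hlt := lab_lt (K := K) (tb := tb) (l := tb.length) (j := j + 1) le_rfl (by omega)
  obtain ⟨Y, hY⟩ := pos_eq (K := K) (tb := tb) hP 1 0 ((j + 1) * be P K tb)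
    (lab K tb.length (j + 1))
  rw [Nat.zero_add] at hY
  apply eq_of_sorted_mem (ch_sorted _ (by omega) _ _) (clu_sorted hP hK _ _ _)
  intro t
  rw [mem_ch _ (by omega)]
  constructor
  · rintro ⟨q, hq, ht⟩
    rw [uu_getD hP ha hK hwK] at hq
    have h1 := Ql_res hP ha hK hwK hq
    obtain ⟨h2, _⟩ := lab_match hP hY (dvd_zero _) hlt h1.1 ht
    have h3 : q ∈ rowS P K tb cb w0 j := by
      rcases (mem_Ql q).1 hq with rfl | ⟨n, _, rfl⟩ | ⟨l', hl', j', hj', h⟩ | ⟨j', hj', h⟩
      · exfalso; unfold lab at h2; simp at h2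
      · exfalso; unfold lab at h2; simp at h2
      · exfalso
        have h3 := row_mod hP ha hK hl' hj' h
        rw [h2] at h3
        obtain ⟨h4, _⟩ := lab_inj (by omega) (lt_of_lt_of_le hj' (al_len_le hK l')) h3
        omega
      · have h3 := rowS_mod hP hwK hj' h
        rw [h2] at h3
        obtain ⟨_, h4⟩ := lab_inj (by omega) (by omega) h3
        obtain rfl : j = j' := by omega
        exact h
    obtain ⟨n, hn, h4⟩ := (mem_rowS hP hwK hj q).1 h3
    unfold clu
    rw [List.mem_map]
    refine ⟨n, List.mem_range.2 hn, ?_⟩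
    have h5 : be P K tb * t = be P K tb *
        (tau P K tb (co cb (w0.getD j 0)) + kap P K tb * (j + 1) +
          xx P K tb n (cl P K tb (w0.getD j 0) n)) := by
      rw [ht]
      have e : be P K tb *
        (tau P K tb (co cb (w0.getD j 0)) + kap P K tb * (j + 1) +
          xx P K tb n (cl P K tb (w0.getD j 0) n)) =
        be P K tb * (tau P K tb (co cb (w0.getD j 0)) +
          xx P K tb n (cl P K tb (w0.getD j 0) n)) +
        kap P K tb * ((j + 1) * be P K tb) := by ring
      rw [e, ← h4]
      ring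
    exact (Nat.eq_of_mul_eq_mul_left (by omega) h5).symm
  · intro ht
    unfold clu at ht
    rw [List.mem_map] at ht
    obtain ⟨n, hn, rfl⟩ := ht
    rw [List.mem_range] at hn
    obtain ⟨q, hq⟩ : ∃ q, q = be P K tb * (tau P K tb (co cb (w0.getD j 0)) +
        xx P K tb n (cl P K tb (w0.getD j 0) n)) -
      (tau P K tb 1 + xx P K tb ((j + 1) * be P K tb) (lab K tb.length (j + 1))) := ⟨_, rfl⟩
    have hrow : q ∈ rowS P K tb cb w0 j := by
      unfold rowS
      rw [List.mem_map]
      exact ⟨n, List.mem_range.2 hn, hq.symm⟩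
    refine ⟨q, ?_, ?_⟩
    · rw [uu_getD hP ha hK hwK, mem_Ql]
      exact Or.inr (Or.inr (Or.inr ⟨j, hj, hrow⟩))
    · have hlt2 := off_lt (K := K) (tb := tb) hP (c := 1) le_rfl (c' := co cb (w0.getD j 0))
        (n' := n) (lam' := cl P K tb (w0.getD j 0) n) (n := (j + 1) * be P K tb)
        (lam := lab K tb.length (j + 1))
        (Nat.mul_le_mul_right _ (by omega))
        (hlt.le.trans (b1_le_be hP))
      have h5 : q + (tau P K tb 1 + xx P K tb ((j + 1) * be P K tb)
          (lab K tb.length (j + 1))) =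
        be P K tb * (tau P K tb (co cb (w0.getD j 0)) +
          xx P K tb n (cl P K tb (w0.getD j 0) n)) := by omega
      have e : be P K tb *
        (tau P K tb (co cb (w0.getD j 0)) + kap P K tb * (j + 1) +
          xx P K tb n (cl P K tb (w0.getD j 0) n)) =
        be P K tb * (tau P K tb (co cb (w0.getD j 0)) +
          xx P K tb n (cl P K tb (w0.getD j 0) n)) +
        kap P K tb * ((j + 1) * be P K tb) := by ring
      rw [e, ← h5]
      ring

/-- the children of the first event -/
theorem ch_zero (hP : 2 ≤ P) (ha : Adm tb cb) (hK : ∀ w ∈ tb, w.length ≤ K)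
    (hwK : w0.length < K) :
    ch (be P K tb) (uu P K tb cb w0) 0 = 0 :: scl P K tb w0 := by
  have hB8 := be_ge (K := K) (tb := tb) hP
  have hbb := b1_le_be (K := K) (tb := tb) hP
  apply eq_of_sorted_mem (ch_sorted _ (by omega) _ _)
  · rw [List.pairwise_cons]
    constructor
    · intro t ht
      unfold scl at ht
      rw [List.mem_map] at ht
      obtain ⟨n, _, rfl⟩ := ht
      have : 0 < tau P K tb 1 := by unfold tau; omega
      omega
    · unfold scl
      rw [List.pairwise_map]
      refine List.pairwise_lt_range.imp ?_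
      intro n n' hn
      have : cs P K tb w0 (n + 1) ≤ be P K tb := by
        unfold cs
        split_ifs with h
        · have := lab_lt (K := K) (tb := tb) (l := tb.length) (j := (n + 1) / be P K tb) le_rfl
            (by omega)
          omega
        · omega
      have := xx_lt (K := K) (tb := tb) hP (lam' := cs P K tb w0 (n' + 1))
        (show n + 1 < n' + 1 by omega) this
      omega
  · intro t
    rw [mem_ch _ (by omega)]
    constructor
    · rintro ⟨q, hq, ht⟩
      rw [uu_getD hP ha hK hwK] at hq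
      rw [Nat.zero_add] at ht
      have hmod : q % be P K tb = 0 := by rw [← ht]; exact Nat.mul_mod_right _ _
      rcases (mem_Ql q).1 hq with rfl | ⟨n, hn, rfl⟩ | ⟨l', hl', j', hj', h⟩ | ⟨j', hj', h⟩
      · have : t = 0 := by
          rcases Nat.mul_eq_zero.1 ht with h | h
          · omega
          · exact h
        simp [this]
      · right
        have := Nat.eq_of_mul_eq_mul_left (by omega) ht
        rw [this]
        exact List.mem_map.2 ⟨n, List.mem_range.2 hn, rfl⟩
      · exfalso
        have h3 := row_mod hP ha hK hl' hj' h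
        rw [hmod] at h3
        unfold lab at h3
        omega
      · exfalso
        have h3 := rowS_mod hP hwK hj' h
        rw [hmod] at h3
        unfold lab at h3
        omega
    · intro ht
      rcases List.mem_cons.1 ht with rfl | ht
      · exact ⟨0, (uu_getD hP ha hK hwK 0).2 ((mem_Ql 0).2 (Or.inl rfl)), by simp⟩
      · unfold scl at ht
        rw [List.mem_map] at ht
        obtain ⟨n, hn, rfl⟩ := ht
        refine ⟨_, (uu_getD hP ha hK hwK _).2 ((mem_Ql _).2
          (Or.inr (Or.inl ⟨n, List.mem_range.1 hn, rfl⟩))), by simp⟩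

/-! ## letters -/

theorem cl_lt (hK : ∀ w ∈ tb, w.length ≤ K) (l n : ℕ) : cl P K tb l n < b1 K tb := by
  have h4 : 4 ≤ b1 K tb := b1_pos
  unfold cl
  split_ifs with h
  · have hl : l < tb.length := by
      by_contra hcon
      rw [al_ge (by omega)] at h
      simp at h
    exact lab_lt hl.le (h.2.le.trans (al_len_le hK l))
  · omega

theorem cs_lt (hwK : w0.length < K) (n : ℕ) : cs P K tb w0 n < b1 K tb := by
  have h4 : 4 ≤ b1 K tb := b1_pos
  unfold cs
  split_ifs with h
  · exact lab_lt le_rfl (by omega)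
  · omega

/-- the events of a letter in a nonzero mode, or of a dead letter, have no children -/
theorem step_dead (hP : 2 ≤ P) (ha : Adm tb cb) (hK : ∀ w ∈ tb, w.length ≤ K)
    (hwK : w0.length < K) {i a J l L : ℕ} (R : List ℕ) (hiJ : i + a = J) (hJ : b1 K tb ∣ J)
    (h : al tb l = [] ∨ ¬ be P K tb ∣ J) :
    (es (be P K tb) (kap P K tb) (uu P K tb cb w0))^[CC P K tb - L] (i, clu P K tb cb l L a ++ R) =
      (i + (CC P K tb - L), R) := by
  unfold clu
  rw [es_range]
  suffices hs : (List.range (CC P K tb - L)).flatMap (fun n =>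
      ch (be P K tb) (uu P K tb cb w0) (tau P K tb (co cb l) + kap P K tb * a +
        xx P K tb n (cl P K tb l n) + kap P K tb * (i + n))) = [] by
    rw [hs, List.append_nil]
  rw [List.flatMap_eq_nil_iff]
  intro n _
  obtain ⟨Y, hY⟩ := pos_eq (K := K) (tb := tb) hP (co cb l) J n (cl P K tb l n)
  have e : tau P K tb (co cb l) + kap P K tb * a + xx P K tb n (cl P K tb l n) +
      kap P K tb * (i + n) = tau P K tb (co cb l) + xx P K tb n (cl P K tb l n) +
      kap P K tb * (J + n) := by
    rw [← hiJ]; ring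
  rw [e]
  refine ch_dead hP ha hK hwK hY hJ (cl_lt hK l n) ?_
  rcases h with h | h
  · left
    unfold cl
    rw [h]
    simp
  · right; exact h

/-- the events of a letter in mode zero -/
theorem step_live (hP : 2 ≤ P) (ha : Adm tb cb) (hK : ∀ w ∈ tb, w.length ≤ K)
    (hwK : w0.length < K) {i a b l L : ℕ} (R : List ℕ) (hiJ : i + a = be P K tb * b)
    (hL : L ≤ DD P K) :
    (es (be P K tb) (kap P K tb) (uu P K tb cb w0))^[CC P K tb - L] (i, clu P K tb cb l L a ++ R) =
      (i + (CC P K tb - L), R ++ (List.range (al tb l).length).flatMap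
        (fun j => clu P K tb cb ((al tb l).getD j 0) (Ln P K tb l j) (b + j))) := by
  have hB8 := be_ge (K := K) (tb := tb) hP
  have hCC := CC_gt (K := K) (tb := tb) hP
  unfold clu
  rw [es_range]
  congr 2
  have hfm := flat_mult (be P K tb) (by omega) (fun j => clu P K tb cb ((al tb l).getD j 0)
    (Ln P K tb l j) (b + j)) (al tb l).length (CC P K tb - L) (by
      intro j hj
      have h1 := al_len_le hK l
      have : j * be P K tb ≤ (K - 1) * be P K tb := Nat.mul_le_mul_right _ (by omega)
      omega)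
  unfold clu at hfm
  rw [← hfm]
  apply List.flatMap_congr
  intro n _
  have e : tau P K tb (co cb l) + kap P K tb * a + xx P K tb n (cl P K tb l n) +
      kap P K tb * (i + n) = tau P K tb (co cb l) + xx P K tb n (cl P K tb l n) +
      kap P K tb * (be P K tb * b + n) := by
    rw [← hiJ]; ring
  rw [e]
  by_cases hc : n % be P K tb = 0 ∧ n / be P K tb < (al tb l).length
  · rw [if_pos hc]
    have hl : l < tb.length := by
      by_contra hcon
      rw [al_ge (by omega)] at hc
      simp at hc
    have hn : n = n / be P K tb * be P K tb := by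
      have := Nat.div_add_mod n (be P K tb)
      rw [hc.1, Nat.mul_comm] at this
      omega
    have hcl : cl P K tb l n = lab K l (n / be P K tb) := by
      unfold cl; rw [if_pos hc]
    have := ch_live (w0 := w0) hP ha hK hwK (b := b) hl hc.2
    rw [hcl]
    rw [← hn] at this
    rw [this]
    rfl
  · rw [if_neg hc]
    obtain ⟨Y, hY⟩ := pos_eq (K := K) (tb := tb) hP (co cb l) (be P K tb * b) n (cl P K tb l n)
    refine ch_dead hP ha hK hwK hY (Dvd.dvd.mul_right (Dvd.intro_left P rfl) b) (cl_lt hK l n) ?_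
    left
    unfold cl
    rw [if_neg hc]

/-- the start cluster -/
theorem step_start (hP : 2 ≤ P) (ha : Adm tb cb) (hK : ∀ w ∈ tb, w.length ≤ K)
    (hwK : w0.length < K) :
    (es (be P K tb) (kap P K tb) (uu P K tb cb w0))^[(w0.length + 1) * be P K tb - 2]
      (1, scl P K tb w0) =
      ((w0.length + 1) * be P K tb - 1, (List.range w0.length).flatMap
        (fun j => clu P K tb cb (w0.getD j 0) 1 (j + 1))) := by
  have hB8 := be_ge (K := K) (tb := tb) hP
  have hge : 8 ≤ (w0.length + 1) * be P K tb :=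
    hB8.trans (Nat.le_mul_of_pos_left _ (by omega))
  have h0 : scl P K tb w0 = scl P K tb w0 ++ [] := by simp
  rw [h0]
  unfold scl
  rw [es_range]
  congr 1
  · omega
  · rw [List.nil_append]
    -- compare with the range shifted by one
    have hfm := flat_mult (be P K tb) (by omega) (fun j => if j = 0 then [] else
      clu P K tb cb (w0.getD (j - 1) 0) 1 j) (w0.length + 1)
      ((w0.length + 1) * be P K tb - 1) (by
        intro j hj
        have : j * be P K tb ≤ w0.length * be P K tb := Nat.mul_le_mul_right _ (by omega)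
        have e : (w0.length + 1) * be P K tb = w0.length * be P K tb + be P K tb := by ring
        omega)
    obtain ⟨h', hh'⟩ : ∃ h', (w0.length + 1) * be P K tb - 2 = h' := ⟨_, rfl⟩
    have hh2 : (w0.length + 1) * be P K tb - 1 = h' + 1 := by omega
    rw [hh2, List.range_succ_eq_map, List.range_succ_eq_map, List.flatMap_cons,
      List.flatMap_cons, List.flatMap_map, List.flatMap_map] at hfm
    simp only [Nat.zero_mod, Nat.zero_div, Nat.zero_lt_succ, and_self, if_true, List.nil_append,
      Nat.succ_eq_add_one, Nat.add_one_ne_zero, if_false, Nat.add_sub_cancel] at hfm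
    rw [hh', ← hfm]
    apply List.flatMap_congr
    intro n _
    have e : tau P K tb 1 + xx P K tb (n + 1) (cs P K tb w0 (n + 1)) + kap P K tb * (1 + n) =
        tau P K tb 1 + xx P K tb (n + 1) (cs P K tb w0 (n + 1)) +
        kap P K tb * (0 + (n + 1)) := by ring
    rw [e]
    by_cases hc : (n + 1) % be P K tb = 0 ∧ (n + 1) / be P K tb < w0.length + 1
    · rw [if_pos hc]
      obtain ⟨j, hj⟩ : ∃ j, (n + 1) / be P K tb = j + 1 := by
        have h1 := Nat.div_add_mod (n + 1) (be P K tb)
        rw [hc.1] at h1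
        rcases hh : (n + 1) / be P K tb with _ | j
        · rw [hh] at h1; omega
        · exact ⟨j, rfl⟩
      have hn : n + 1 = (j + 1) * be P K tb := by
        have := Nat.div_add_mod (n + 1) (be P K tb)
        rw [hc.1, Nat.mul_comm, hj] at this
        omega
      have hcl : cs P K tb w0 (n + 1) = lab K tb.length (j + 1) := by
        unfold cs
        rw [if_pos ⟨hc.1, by omega, by omega⟩, hj]
      have := ch_liveS (tb := tb) (cb := cb) (w0 := w0) hP ha hK hwK (j := j) (by omega)
      rw [hcl, hj, if_neg (by omega), Nat.add_sub_cancel, Nat.zero_add, ← this, ← hn]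
    · rw [if_neg hc]
      obtain ⟨Y, hY⟩ := pos_eq (K := K) (tb := tb) hP 1 0 (n + 1) (cs P K tb w0 (n + 1))
      refine ch_dead hP ha hK hwK hY (dvd_zero _) (cs_lt hwK _) ?_
      left
      unfold cs
      rw [if_neg]
      rintro ⟨h1, h2, h3⟩
      exact hc ⟨h1, by omega⟩

/-! ## lists of letters -/

/-- the events of a list of letters with their lengths -/
def clus (P K : ℕ) (tb : List (List ℕ)) (cb : List ℕ) : ℕ → List (ℕ × ℕ) → List ℕ
  | _, [] => []
  | a, p :: s => clu P K tb cb p.1 p.2 a ++ clus P K tb cb (a + p.2) s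

/-- sum of the lengths -/
def sL (s : List (ℕ × ℕ)) : ℕ := (s.map Prod.snd).sum

theorem clus_append (s1 s2 : List (ℕ × ℕ)) : ∀ a,
    clus P K tb cb a (s1 ++ s2) = clus P K tb cb a s1 ++ clus P K tb cb (a + sL s1) s2 := by
  induction s1 with
  | nil => intro a; simp [clus, sL]
  | cons p s1 ih =>
    intro a
    simp only [List.cons_append, clus, ih, List.append_assoc]
    congr 3
    simp [sL]; ring

/-- the new letters -/
def nw (P K : ℕ) (tb : List (List ℕ)) (l : ℕ) : List (ℕ × ℕ) :=
  (List.range (al tb l).length).map (fun j => ((al tb l).getD j 0, Ln P K tb l j))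

theorem nw_fst (l : ℕ) : (nw P K tb l).map Prod.fst = al tb l := by
  unfold nw
  rw [List.map_map]
  apply List.ext_getElem
  · simp
  · intro j h1 h2
    simp [List.getElem?_eq_getElem h2]

theorem clus_map (c : ℕ) (F : ℕ → ℕ) (G : ℕ → ℕ) : ∀ b, (∀ j, j + 1 < c → G j = 1) →
    clus P K tb cb b ((List.range c).map (fun j => (F j, G j))) =
      (List.range c).flatMap (fun j => clu P K tb cb (F j) (G j) (b + j)) := by
  induction c with
  | zero => intro b _; simp [clus]
  | succ c ih =>
    intro b h
    rw [List.range_succ, List.map_append, clus_append, ih b (fun j hj => h j (by omega)),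
      List.flatMap_append]
    congr 1
    simp only [List.map_cons, List.map_nil, clus, List.append_nil, List.flatMap_cons,
      List.flatMap_nil]
    congr 1
    have : sL ((List.range c).map (fun j => (F j, G j))) = c := by
      unfold sL
      rw [List.map_map]
      have : (List.range c).map (Prod.snd ∘ fun j => (F j, G j)) = (List.range c).map (fun _ => 1) := by
        apply List.map_congr_left
        intro j hj
        rw [List.mem_range] at hj
        exact h j (by omega)
      rw [this]
      simp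
    rw [this]

theorem nw_sL (hK : ∀ w ∈ tb, w.length ≤ K) (hP : 2 ≤ P) (l : ℕ) (h : al tb l ≠ []) :
    sL (nw P K tb l) = DD P K := by
  have hlen := al_len_le hK l
  obtain ⟨c, hc⟩ : ∃ c, (al tb l).length = c + 1 := by
    have : (al tb l).length ≠ 0 := by simpa using h
    exact ⟨(al tb l).length - 1, by omega⟩
  unfold sL nw
  rw [List.map_map, hc, List.range_succ, List.map_append, List.sum_append]
  have e1 : (List.range c).map (Prod.snd ∘ fun j => ((al tb l).getD j 0, Ln P K tb l j)) =
      (List.range c).map (fun _ => 1) := by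
    apply List.map_congr_left
    intro j hj
    rw [List.mem_range] at hj
    simp only [Function.comp, Ln]
    rw [if_pos (by omega)]
  rw [e1]
  simp only [List.map_const', List.length_range, List.sum_replicate, smul_eq_mul, mul_one,
    List.map_cons, List.map_nil, List.sum_cons, List.sum_nil, Function.comp, Ln, hc,
    lt_irrefl, if_false, add_zero]
  have : c + 1 ≤ DD P K := by
    unfold DD
    nlinarith
  omega

theorem nw_mem (hP : 2 ≤ P) (hK : ∀ w ∈ tb, w.length ≤ K) (l : ℕ) :
    ∀ p ∈ nw P K tb l, p.2 ≤ DD P K := by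
  intro p hp
  unfold nw at hp
  rw [List.mem_map] at hp
  obtain ⟨j, hj, rfl⟩ := hp
  rw [List.mem_range] at hj
  have hlen := al_len_le hK l
  simp only [Ln]
  split_ifs
  · unfold DD; omega
  · have : (al tb l).length ≤ DD P K := by
      unfold DD; nlinarith
    omega

/-- relation between the states of the tag system and the states of the machine of events -/
def Rl (P K : ℕ) (tb : List (List ℕ)) (cb : List ℕ) (x : ℕ × List ℕ) (y : ℕ × List ℕ) : Prop :=
  ∃ a b s, x.1 < P ∧ x.2 = s.map Prod.fst ∧ y.2 = clus P K tb cb a s ∧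
    (∀ p ∈ s, p.2 ≤ DD P K) ∧ y.1 + a = be P K tb * b + x.1 * CC P K tb ∧
    a + sL s = b + if x.1 = 0 then 0 else DD P K

theorem Rl_step (hP : 2 ≤ P) (ha : Adm tb cb) (hK : ∀ w ∈ tb, w.length ≤ K)
    (hwK : w0.length < K) {x y : ℕ × List ℕ} (h : Rl P K tb cb x y) (hg : Good tb x) :
    ∃ m, (x.2 ≠ [] → 1 ≤ m) ∧
      Rl P K tb cb (ls P tb x) ((es (be P K tb) (kap P K tb) (uu P K tb cb w0))^[m] y) := by
  have hB8 := be_ge (K := K) (tb := tb) hP
  have hCC := CC_gt (K := K) (tb := tb) hP
  obtain ⟨a, b, s, hx, hx2, hy2, hs, hy, hsL⟩ := h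
  obtain ⟨nu, W⟩ := x
  obtain ⟨i, L0⟩ := y
  simp only at hx hx2 hy2 hy hsL
  rcases s with _ | ⟨⟨l, L⟩, s⟩
  · refine ⟨0, ?_, ?_⟩
    · intro hne; exact absurd hx2 hne
    · rw [hx2]
      exact ⟨a, b, [], hx, rfl, hy2, hs, hy, hsL⟩
  · rw [List.map_cons] at hx2
    simp only at hx2
    subst hx2
    subst hy2
    have hL : L ≤ DD P K := hs (l, L) List.mem_cons_self
    refine ⟨CC P K tb - L, fun _ => by omega, ?_⟩
    have hsLc : sL ((l, L) :: s) = L + sL s := by simp [sL]
    rw [hsLc] at hsL
    simp only [clus]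
    by_cases hnu : nu = 0
    · subst hnu
      have hal : al tb l ≠ [] := hg l _ rfl
      simp only [if_true, Nat.zero_mul, Nat.add_zero] at hsL hy
      rw [step_live hP ha hK hwK _ hy hL]
      refine ⟨a + L, b, s ++ nw P K tb l, ?_, ?_, ?_, ?_, ?_, ?_⟩
      · simp only [ls]
        exact Nat.mod_lt _ (by omega)
      · simp only [ls, if_true, List.map_append, nw_fst]
      · simp only
        rw [clus_append]
        congr 1
        have hb : a + L + sL s = b := by omega
        rw [hb]
        unfold nw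
        rw [clus_map]
        intro j hj
        simp only [Ln]
        rw [if_pos hj]
      · intro p hp
        rcases List.mem_append.1 hp with hp | hp
        · exact hs p (List.mem_cons_of_mem _ hp)
        · exact nw_mem hP hK l p hp
      · simp only [ls]
        rw [Nat.zero_add, Nat.mod_eq_of_lt (by omega : 1 < P), Nat.one_mul]
        omega
      · simp only [ls]
        rw [Nat.zero_add, Nat.mod_eq_of_lt (by omega : 1 < P), if_neg (by omega)]
        have : sL (s ++ nw P K tb l) = sL s + DD P K := by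
          have := nw_sL hK hP l hal
          unfold sL at this ⊢
          rw [List.map_append, List.sum_append, this]
        omega
    · rw [if_neg hnu] at hsL
      have hCe : CC P K tb = be P K tb * K + b1 K tb := CC_eq
      have hb4 : 4 ≤ b1 K tb := b1_pos
      have hJ : b1 K tb ∣ be P K tb * b + nu * CC P K tb := by
        refine dvd_add (Dvd.dvd.mul_right (Dvd.intro_left P rfl) b) ?_
        refine Dvd.dvd.mul_left ?_ nu
        rw [hCe]
        exact dvd_add (Dvd.dvd.mul_right (Dvd.intro_left P rfl) K) (dvd_refl _)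
      have hJ2 : ¬ be P K tb ∣ be P K tb * b + nu * CC P K tb := by
        intro hd
        rw [Nat.dvd_add_right (Dvd.intro _ rfl), hCe] at hd
        have e : nu * (be P K tb * K + b1 K tb) = be P K tb * (nu * K) + nu * b1 K tb := by ring
        rw [e, Nat.dvd_add_right (Dvd.intro _ rfl)] at hd
        have h1 : nu * b1 K tb < be P K tb := by
          unfold be
          exact Nat.mul_lt_mul_of_pos_right hx (by omega)
        have h2 : 0 < nu * b1 K tb := Nat.mul_pos (by omega) (by omega)
        exact absurd (Nat.le_of_dvd h2 hd) (by omega)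
      rw [step_dead hP ha hK hwK _ hy hJ (Or.inr hJ2)]
      by_cases hn : nu + 1 < P
      · refine ⟨a + L, b, s, ?_, ?_, rfl, fun p hp => hs p (List.mem_cons_of_mem _ hp), ?_, ?_⟩
        · simp only [ls]
          exact Nat.mod_lt _ (by omega)
        · simp only [ls, if_neg hnu]
        · simp only [ls]
          rw [Nat.mod_eq_of_lt hn, Nat.add_mul, Nat.one_mul]
          omega
        · change a + L + sL s = b + if (nu + 1) % P = 0 then 0 else DD P K
          rw [Nat.mod_eq_of_lt hn, if_neg (by omega)]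
          omega
      · have hn' : nu + 1 = P := by omega
        refine ⟨a + L, b + DD P K, s, ?_, ?_, rfl, fun p hp => hs p (List.mem_cons_of_mem _ hp),
          ?_, ?_⟩
        · simp only [ls]
          exact Nat.mod_lt _ (by omega)
        · simp only [ls, if_neg hnu]
        · simp only [ls]
          rw [hn', Nat.mod_self, Nat.zero_mul, Nat.add_zero, Nat.mul_add]
          have : be P K tb * DD P K = nu * CC P K tb + CC P K tb := by
            have e : nu * CC P K tb + CC P K tb = (nu + 1) * CC P K tb := by ring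
            rw [e, hn']
            unfold CC be
            ring
          omega
        · change a + L + sL s = b + DD P K + if (nu + 1) % P = 0 then 0 else DD P K
          rw [hn', Nat.mod_self, if_pos rfl]
          omega

/-- dead letters disappear -/
theorem dead_end (hP : 2 ≤ P) (ha : Adm tb cb) (hK : ∀ w ∈ tb, w.length ≤ K)
    (hwK : w0.length < K) (s : List (ℕ × ℕ)) : ∀ (a i : ℕ), b1 K tb ∣ i + a →
    (∀ p ∈ s, p.2 ≤ DD P K) → (∀ p ∈ s, al tb p.1 = []) →
    ∃ m, ((es (be P K tb) (kap P K tb) (uu P K tb cb w0))^[m] (i, clus P K tb cb a s)).2 = [] := by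
  have hCC := CC_gt (K := K) (tb := tb) hP
  induction s with
  | nil => intro a i _ _ _; exact ⟨0, rfl⟩
  | cons p s ih =>
    intro a i hd h1 h2
    have hL : p.2 ≤ DD P K := h1 p List.mem_cons_self
    obtain ⟨m, hm⟩ := ih (a + p.2) (i + (CC P K tb - p.2)) (by
      have e : i + (CC P K tb - p.2) + (a + p.2) = (i + a) + CC P K tb := by omega
      rw [e]
      refine dvd_add hd ?_
      rw [CC_eq]
      exact dvd_add (Dvd.dvd.mul_right (Dvd.intro_left P rfl) K) (dvd_refl _))
      (fun q hq => h1 q (List.mem_cons_of_mem _ hq)) (fun q hq => h2 q (List.mem_cons_of_mem _ hq))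
    refine ⟨m + (CC P K tb - p.2), ?_⟩
    rw [Function.iterate_add_apply]
    simp only [clus]
    rw [step_dead hP ha hK hwK _ rfl hd (Or.inl (h2 p List.mem_cons_self))]
    exact hm

theorem Rl_start (hP : 2 ≤ P) (hw : w0 ≠ []) :
    Rl P K tb cb (0, w0) ((w0.length + 1) * be P K tb - 1, (List.range w0.length).flatMap
        (fun j => clu P K tb cb (w0.getD j 0) 1 (j + 1))) := by
  have hB8 := be_ge (K := K) (tb := tb) hP
  have hge : 8 ≤ (w0.length + 1) * be P K tb :=
    hB8.trans (Nat.le_mul_of_pos_left _ (by omega))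
  refine ⟨1, w0.length + 1, (List.range w0.length).map (fun j => (w0.getD j 0, 1)), by simp; omega,
    ?_, ?_, ?_, ?_, ?_⟩
  · simp only
    rw [List.map_map]
    apply List.ext_getElem
    · simp
    · intro j h1 h2
      simp [List.getElem?_eq_getElem h1]
  · simp only
    rw [clus_map]
    · apply List.flatMap_congr
      intro j _
      rw [Nat.add_comm]
    · intro j _; rfl
  · intro p hp
    rw [List.mem_map] at hp
    obtain ⟨j, _, rfl⟩ := hp
    simp only [DD]
    omega
  · simp only [Nat.zero_mul, Nat.add_zero]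
    rw [Nat.mul_comm (be P K tb)]
    omega
  · simp only [sL, List.map_map]
    have : (List.range w0.length).map (Prod.snd ∘ fun j => (w0.getD j 0, 1)) =
        (List.range w0.length).map (fun _ => 1) := rfl
    rw [this]
    simp
    omega

theorem iter_start (hP : 2 ≤ P) (ha : Adm tb cb) (hK : ∀ w ∈ tb, w.length ≤ K) (hw : w0 ≠ [])
    (hwK : w0.length < K) (n : ℕ) (hg : ∀ m < n, Good tb ((ls P tb)^[m] (0, w0))) :
    ∃ m, ((∀ m < n, ((ls P tb)^[m] (0, w0)).2 ≠ []) → n ≤ m) ∧
      Rl P K tb cb ((ls P tb)^[n] (0, w0))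
        ((es (be P K tb) (kap P K tb) (uu P K tb cb w0))^[m]
          (1, (ch (be P K tb) (uu P K tb cb w0) 0).tail)) := by
  induction n with
  | zero =>
    refine ⟨(w0.length + 1) * be P K tb - 2, fun _ => Nat.zero_le _, ?_⟩
    rw [ch_zero hP ha hK hwK, List.tail_cons, step_start hP ha hK hwK]
    exact Rl_start hP hw
  | succ n ih =>
    obtain ⟨m, hm1, hm2⟩ := ih (fun m hm => hg m (by omega))
    obtain ⟨m', hm3, hm4⟩ := Rl_step hP ha hK hwK hm2 (hg n (by omega))
    refine ⟨m' + m, ?_, ?_⟩
    · intro h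
      have h1 := hm1 (fun k hk => h k (by omega))
      have h2 := hm3 (h n (by omega))
      omega
    · rw [Function.iterate_succ_apply', Function.iterate_add_apply]
      exact hm4

/-- C1 -/
theorem stC1 (hP : 2 ≤ P) (ha : Adm tb cb)
    (hK : ∀ w ∈ tb, w.length ≤ K) (hw : w0 ≠ []) (hwK : w0.length < K) (h : Dies P tb w0) :
    ∃ n, ((es (be P K tb) (kap P K tb) (uu P K tb cb w0))^[n]
      (1, (ch (be P K tb) (uu P K tb cb w0) 0).tail)).2 = [] := by
  obtain ⟨n, hg, hd⟩ := h
  obtain ⟨m, _, a, b, s, hx, hx2, hy2, hs, hy, _⟩ := iter_start hP ha hK hw hwK n hg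
  obtain ⟨i, L0, hiL⟩ : ∃ i L0, ((es (be P K tb) (kap P K tb) (uu P K tb cb w0))^[m]
      (1, (ch (be P K tb) (uu P K tb cb w0) 0).tail)) = (i, L0) := ⟨_, _, rfl⟩
  rw [hiL] at hy2 hy
  simp only at hy2 hy
  subst hy2
  have hdv : b1 K tb ∣ i + a := by
    rw [hy]
    refine dvd_add (Dvd.dvd.mul_right (Dvd.intro_left P rfl) b) (Dvd.dvd.mul_left ?_ _)
    rw [CC_eq]
    exact dvd_add (Dvd.dvd.mul_right (Dvd.intro_left P rfl) K) (dvd_refl _)
  obtain ⟨m', hm'⟩ := dead_end (w0 := w0) hP ha hK hwK s a i hdv hs (by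
    intro p hp
    apply hd
    rw [hx2]
    exact List.mem_map_of_mem hp)
  refine ⟨m' + m, ?_⟩
  rw [Function.iterate_add_apply, hiL]
  exact hm'

theorem es_empty (be kap : ℕ) (u : List Bool) (y : ℕ × List ℕ) (h : y.2 = []) (n : ℕ) :
    ((es be kap u)^[n] y).2 = [] := by
  induction n with
  | zero => exact h
  | succ n ih =>
    rw [Function.iterate_succ_apply']
    generalize (es be kap u)^[n] y = z at *
    obtain ⟨i, L⟩ := z
    have ih' : L = [] := ih
    subst ih'
    rfl

/-- C2 -/
theorem stC2 (hP : 2 ≤ P) (ha : Adm tb cb)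
    (hK : ∀ w ∈ tb, w.length ≤ K) (hw : w0 ≠ []) (hwK : w0.length < K) (h : Lives P tb w0) :
    ¬ ∃ n, ((es (be P K tb) (kap P K tb) (uu P K tb cb w0))^[n]
      (1, (ch (be P K tb) (uu P K tb cb w0) 0).tail)).2 = [] := by
  rintro ⟨n, hn⟩
  obtain ⟨m, hm, a, b, s, hx, hx2, hy2, hs, hy, _⟩ := iter_start hP ha hK hw hwK n
    (fun m _ => (h m).1)
  have hnm : n ≤ m := hm (fun m _ => (h m).2)
  have hne := (h n).2
  rw [hx2] at hne
  have hCC := CC_gt (K := K) (tb := tb) hP
  rcases s with _ | ⟨p, s⟩
  · simp at hne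
  · obtain ⟨d, rfl⟩ : ∃ d, m = d + n := ⟨m - n, by omega⟩
    rw [Function.iterate_add_apply, es_empty _ _ _ _ hn] at hy2
    have hp := hs p List.mem_cons_self
    simp only [clus] at hy2
    have h1 : clu P K tb cb p.1 p.2 a = [] := (List.append_eq_nil_iff.1 hy2.symm).1
    unfold clu at h1
    rw [List.map_eq_nil_iff, List.range_eq_nil] at h1
    omega

/-- C0 -/
theorem stC0 (hP : 2 ≤ P) (ha : Adm tb cb)
    (hK : ∀ w ∈ tb, w.length ≤ K) (hwK : w0.length < K)
    (hwr : ∀ l ∈ w0, co cb l = 0) :
    2 ≤ kk P K tb ∧ be P K tb = kk P K tb + 1 ∧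
    (uu P K tb cb w0).length = kap P K tb + 1 ∧ (uu P K tb cb w0).getD 0 false = true ∧
    kk P K tb ∣ kap P K tb ∧ kk P K tb ≤ kap P K tb ∧
    ∀ q, 0 < q → kk P K tb ∣ q → (uu P K tb cb w0).getD q false = false := by
  have h7 := kk_ge (K := K) (tb := tb) hP
  have hbe := be_eq (K := K) (tb := tb) hP
  have hdv : kk P K tb ∣ kap P K tb := by unfold kap; exact Dvd.intro _ rfl
  refine ⟨by omega, hbe, by simp [uu], ?_, hdv, ?_, ?_⟩
  · rw [uu_getD hP ha hK hwK, mem_Ql]
    exact Or.inl rfl
  · apply Nat.le_of_dvd _ hdv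
    rw [kap_eq hP]
    omega
  · intro q hq hdq
    by_contra hcon
    have hq2 : (uu P K tb cb w0).getD q false = true := by
      cases hh : (uu P K tb cb w0).getD q false
      · exact absurd hh hcon
      · rfl
    rw [uu_getD hP ha hK hwK] at hq2
    -- general facts modulo kk
    have ex : ∀ n lam, kk P K tb ∣ xx P K tb n lam := by
      intro n lam; unfold xx; exact Dvd.intro _ rfl
    have et : ∀ c, ∃ z, tau P K tb c = kk P K tb * z + c := by
      intro c
      refine ⟨3 * (K + 1) * be P K tb + c, ?_⟩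
      unfold tau
      rw [hbe]; ring
    have eb : ∀ X, ∃ z, be P K tb * X = kk P K tb * z + X := by
      intro X
      refine ⟨X, ?_⟩
      rw [hbe]; ring
    have nd : ∀ z, ¬ kk P K tb ∣ kk P K tb * z + 1 := by
      intro z hz
      rw [Nat.dvd_add_right (Dvd.intro _ rfl)] at hz
      have := Nat.le_of_dvd (by omega) hz
      omega
    rcases (mem_Ql q).1 hq2 with rfl | ⟨n, hn, rfl⟩ | ⟨l, hl, j, hj, h⟩ | ⟨j, hj, h⟩
    · omega
    · obtain ⟨z1, hz1⟩ := eb (tau P K tb 1 + xx P K tb (n + 1) (cs P K tb w0 (n + 1)))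
      obtain ⟨z2, hz2⟩ := et 1
      obtain ⟨z3, hz3⟩ := ex (n + 1) (cs P K tb w0 (n + 1))
      rw [hz1, hz2, hz3] at hdq
      apply nd (z1 + z2 + z3)
      have e : kk P K tb * (z1 + z2 + z3) + 1 =
        kk P K tb * z1 + (kk P K tb * z2 + 1 + kk P K tb * z3) := by ring
      rw [e]; exact hdq
    · obtain ⟨n, hn, h1⟩ := (mem_row hP ha hK hl hj q).1 h
      have hl' : (al tb l).getD j 0 ∈ al tb l := by
        rw [List.getD_eq_getElem _ _ hj]; exact List.getElem_mem _
      have hcc := ha.hc l _ hl'
      have hc1 := ha.h1 l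
      generalize (al tb l).getD j 0 = l' at *
      obtain ⟨z1, hz1⟩ := eb (tau P K tb (co cb l') + xx P K tb n (cl P K tb l' n))
      obtain ⟨z2, hz2⟩ := et (co cb l')
      obtain ⟨z3, hz3⟩ := ex n (cl P K tb l' n)
      obtain ⟨z4, hz4⟩ := et (co cb l)
      obtain ⟨z5, hz5⟩ := ex (j * be P K tb) (lab K l j)
      obtain ⟨z6, hz6⟩ := hdq
      rw [hz1, hz2, hz3, hz4, hz5, hz6] at h1
      have e1 : kk P K tb * (z6 + z4 + z5) + co cb l = kk P K tb * (z1 + z2 + z3) + co cb l' := by
        have a1 : kk P K tb * (z6 + z4 + z5) + co cb l =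
          kk P K tb * z6 + (kk P K tb * z4 + co cb l + kk P K tb * z5) := by ring
        have a2 : kk P K tb * (z1 + z2 + z3) + co cb l' =
          kk P K tb * z1 + (kk P K tb * z2 + co cb l' + kk P K tb * z3) := by ring
        rw [a1, a2]; exact h1
      have e2 : co cb l % kk P K tb = co cb l' % kk P K tb := by
        have := congrArg (· % kk P K tb) e1
        simpa [Nat.add_mod] using this
      rw [Nat.mod_eq_of_lt (by omega), Nat.mod_eq_of_lt (by omega)] at e2
      omega
    · obtain ⟨n, hn, h1⟩ := (mem_rowS hP hwK hj q).1 h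
      have hl' : w0.getD j 0 ∈ w0 := by
        rw [List.getD_eq_getElem _ _ hj]; exact List.getElem_mem _
      have hcc := hwr _ hl'
      generalize w0.getD j 0 = l' at *
      rw [hcc] at h1
      obtain ⟨z1, hz1⟩ := eb (tau P K tb 0 + xx P K tb n (cl P K tb l' n))
      obtain ⟨z2, hz2⟩ := et 0
      obtain ⟨z3, hz3⟩ := ex n (cl P K tb l' n)
      obtain ⟨z4, hz4⟩ := et 1
      obtain ⟨z5, hz5⟩ := ex ((j + 1) * be P K tb) (lab K tb.length (j + 1))
      obtain ⟨z6, hz6⟩ := hdq
      rw [hz1, hz2, hz3, hz4, hz5, hz6] at h1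
      have e1 : kk P K tb * (z6 + z4 + z5) + 1 = kk P K tb * (z1 + z2 + z3) := by
        have a1 : kk P K tb * (z6 + z4 + z5) + 1 =
          kk P K tb * z6 + (kk P K tb * z4 + 1 + kk P K tb * z5) := by ring
        have a2 : kk P K tb * (z1 + z2 + z3) =
          kk P K tb * z1 + (kk P K tb * z2 + 0 + kk P K tb * z3) := by ring
        rw [a1, a2]; exact h1
      apply nd (z6 + z4 + z5)
      rw [e1]
      exact Dvd.intro _ rfl

end params

end Pool.Agent.Helper231_PCP
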