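import Mathlib
import Pool.Agent.Helper231_PCP.Defs
import Pool.Agent.Helper231_PCP.Defs2

set_option autoImplicit false

/-! From finite alphabets to tables. -/

namespace Pool.Agent.Helper231_PCP

theorem stD2_aux_ls {X : Type} (P : ℕ) (α : X → List X) (tb : List (List ℕ)) (code : X → ℕ)
    (hal : ∀ x, al tb (code x) = (α x).map code) (s : ℕ × List X) :
    ls P tb (s.1, s.2.map code) = ((lsX P α s).1, (lsX P α s).2.map code) := by
  obtain ⟨nu, w⟩ := s
  cases w with
  | nil => simp [ls, lsX]
  | cons l W =>
    simp only [List.map_cons, ls, lsX, hal]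
    by_cases h : nu = 0
    · simp [h]
    · simp [h]

theorem stD2_aux_iter {X : Type} (P : ℕ) (α : X → List X) (tb : List (List ℕ)) (code : X → ℕ)
    (hal : ∀ x, al tb (code x) = (α x).map code) (w : List X) (n : ℕ) :
    (ls P tb)^[n] (0, w.map code) =
      (((lsX P α)^[n] (0, w)).1, ((lsX P α)^[n] (0, w)).2.map code) := by
  induction n with
  | zero => simp
  | succ n ih =>
    rw [Function.iterate_succ_apply', Function.iterate_succ_apply', ih]
    exact stD2_aux_ls P α tb code hal _

theorem stD2_aux_good {X : Type} (α : X → List X) (tb : List (List ℕ)) (code : X → ℕ)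
    (hal : ∀ x, al tb (code x) = (α x).map code) (s : ℕ × List X) (h : GoodX α s) :
    Good tb (s.1, s.2.map code) := by
  obtain ⟨nu, w⟩ := s
  intro l W hlW
  simp only [Prod.mk.injEq] at hlW
  obtain ⟨h1, h2⟩ := hlW
  subst h1
  cases w with
  | nil => simp at h2
  | cons x w' =>
    simp only [List.map_cons, List.cons.injEq] at h2
    rw [← h2.1, hal]
    have := h x w' rfl
    simpa using this

/-- TARGET -/
theorem stD2 {X : Type} [Finite X] (P : ℕ) (α : X → List X) (c : X → ℕ) (hc1 : ∀ x, c x ≤ 1)
    (hc : ∀ x, ∀ y ∈ α x, c y = 1 - c x) :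
    ∃ (tb : List (List ℕ)) (cb : List ℕ) (code : X → ℕ), Adm tb cb ∧
      (∀ x, code x < tb.length) ∧ (∀ x, co cb (code x) = c x) ∧
      ∀ w : List X, (DiesX P α w → Dies P tb (w.map code)) ∧
        (LivesX P α w → Lives P tb (w.map code)) := by
  classical
  obtain ⟨R, ⟨e⟩⟩ := Finite.exists_equiv_fin X
  let code : X → ℕ := fun x => (e x : ℕ)
  let tb : List (List ℕ) := List.ofFn (fun i : Fin R => (α (e.symm i)).map code)
  let cb : List ℕ := List.ofFn (fun i : Fin R => c (e.symm i))
  have hlen : tb.length = R := by simp [tb]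
  have hcode : ∀ x, code x < tb.length := by
    intro x; rw [hlen]; exact (e x).2
  have hal : ∀ x, al tb (code x) = (α x).map code := by
    intro x
    have h1 : code x < tb.length := hcode x
    rw [al, List.getD_eq_getElem _ _ h1]
    simp [tb, code]
  have hco : ∀ x, co cb (code x) = c x := by
    intro x
    have h1 : code x < cb.length := by
      have : cb.length = R := by simp [cb]
      rw [this]; exact (e x).2
    rw [co, List.getD_eq_getElem _ _ h1]
    simp [cb, code]
  have hnal : ∀ l, (∃ x, code x = l) ∨ al tb l = [] := by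
    intro l
    by_cases hl : l < R
    · left
      exact ⟨e.symm ⟨l, hl⟩, by simp [code]⟩
    · right
      rw [al, List.getD_eq_default _ _ (by rw [hlen]; omega)]
  have hnco : ∀ l, (∃ x, code x = l) ∨ co cb l = 0 := by
    intro l
    by_cases hl : l < R
    · left
      exact ⟨e.symm ⟨l, hl⟩, by simp [code]⟩
    · right
      have : cb.length = R := by simp [cb]
      rw [co, List.getD_eq_default _ _ (by rw [this]; omega)]
  refine ⟨tb, cb, code, ⟨?_, ?_, ?_⟩, hcode, hco, ?_⟩
  · intro w hw l hl
    obtain ⟨i, hi⟩ := List.mem_ofFn.1 hw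
    rw [← hi] at hl
    obtain ⟨y, _, rfl⟩ := List.mem_map.1 hl
    exact hcode y
  · intro l
    rcases hnco l with ⟨x, rfl⟩ | h
    · rw [hco]; exact hc1 x
    · rw [h]; omega
  · intro l l' hl'
    rcases hnal l with ⟨x, rfl⟩ | h
    · rw [hal] at hl'
      obtain ⟨y, hy, rfl⟩ := List.mem_map.1 hl'
      rw [hco, hco]
      exact hc x y hy
    · rw [h] at hl'; simp at hl'
  · intro w
    refine ⟨?_, ?_⟩
    · rintro ⟨n, h1, h2⟩
      refine ⟨n, ?_, ?_⟩
      · intro m hm
        rw [stD2_aux_iter P α tb code hal]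
        exact stD2_aux_good α tb code hal _ (h1 m hm)
      · intro l hl
        rw [stD2_aux_iter P α tb code hal] at hl
        obtain ⟨x, hx, rfl⟩ := List.mem_map.1 hl
        rw [hal, h2 x hx]; rfl
    · intro h n
      rw [stD2_aux_iter P α tb code hal]
      refine ⟨stD2_aux_good α tb code hal _ (h n).1, ?_⟩
      have := (h n).2
      simpa using this

end Pool.Agent.Helper231_PCP
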