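import Mathlib
import Pool.Agent.Helper231_PCP.Defs

set_option autoImplicit false

/-! Computability of the instance. -/

namespace Pool.Agent.Helper231_PCP

section prim

variable {α : Type} [Primcodable α]

theorem p_add {f g : α → ℕ} (hf : Primrec f) (hg : Primrec g) : Primrec (fun a => f a + g a) :=
  Primrec.nat_add.comp hf hg

theorem p_sub {f g : α → ℕ} (hf : Primrec f) (hg : Primrec g) : Primrec (fun a => f a - g a) :=
  Primrec.nat_sub.comp hf hg

theorem p_mul {f g : α → ℕ} (hf : Primrec f) (hg : Primrec g) : Primrec (fun a => f a * g a) :=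
  Primrec.nat_mul.comp hf hg

theorem p_div {f g : α → ℕ} (hf : Primrec f) (hg : Primrec g) : Primrec (fun a => f a / g a) :=
  Primrec.nat_div.comp hf hg

theorem p_mod {f g : α → ℕ} (hf : Primrec f) (hg : Primrec g) : Primrec (fun a => f a % g a) :=
  Primrec.nat_mod.comp hf hg

theorem p_replicate {β : Type} [Primcodable β] (b : β) {f : α → ℕ} (hf : Primrec f) :
    Primrec (fun a => List.replicate (f a) b) := by
  have h : Primrec (fun a => (List.range (f a)).map (fun _ => b)) :=
    Primrec.list_map (Primrec.list_range.comp hf) (Primrec.const b).to₂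
  refine h.of_eq fun a => ?_
  rw [List.map_const', List.length_range]

theorem p_b1 {tb : List (List ℕ)} {K : α → ℕ} (hK : Primrec K) :
    Primrec (fun a => b1 (K a) tb) :=
  p_add (p_mul (Primrec.const _) hK) (Primrec.const _)

theorem p_be {P : ℕ} {tb : List (List ℕ)} {K : α → ℕ} (hK : Primrec K) :
    Primrec (fun a => be P (K a) tb) :=
  p_mul (Primrec.const _) (p_b1 hK)

theorem p_kk {P : ℕ} {tb : List (List ℕ)} {K : α → ℕ} (hK : Primrec K) :
    Primrec (fun a => kk P (K a) tb) :=
  p_sub (p_be hK) (Primrec.const _)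

theorem p_DD {P : ℕ} {K : α → ℕ} (hK : Primrec K) : Primrec (fun a => DD P (K a)) :=
  p_add (p_mul (Primrec.const _) hK) (Primrec.const _)

theorem p_CC {P : ℕ} {tb : List (List ℕ)} {K : α → ℕ} (hK : Primrec K) :
    Primrec (fun a => CC P (K a) tb) :=
  p_mul (p_DD hK) (p_b1 hK)

theorem p_tau {P : ℕ} {tb : List (List ℕ)} {K c : α → ℕ} (hK : Primrec K) (hc : Primrec c) :
    Primrec (fun a => tau P (K a) tb (c a)) :=
  p_add (p_mul (p_mul (p_mul (Primrec.const _) (p_add hK (Primrec.const _))) (p_be hK)) (p_kk hK))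
    (p_mul hc (p_be hK))

theorem p_xx {P : ℕ} {tb : List (List ℕ)} {K n lam : α → ℕ} (hK : Primrec K) (hn : Primrec n)
    (hl : Primrec lam) : Primrec (fun a => xx P (K a) tb (n a) (lam a)) :=
  p_mul (p_kk hK) (p_add (p_mul (p_add (p_be hK) (Primrec.const _)) hn) hl)

theorem p_mu {P : ℕ} {tb : List (List ℕ)} {K : α → ℕ} (hK : Primrec K) :
    Primrec (fun a => mu P (K a) tb) :=
  p_add (p_tau hK (Primrec.const _)) (p_xx hK (p_mul (p_add hK (Primrec.const _)) (p_be hK))
    (p_be hK))

theorem p_kap {P : ℕ} {tb : List (List ℕ)} {K : α → ℕ} (hK : Primrec K) :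
    Primrec (fun a => kap P (K a) tb) :=
  p_mul (p_kk hK) (p_add (p_mul (p_be hK) (p_mu hK)) (p_kk hK))

theorem p_lab {K l j : α → ℕ} (hK : Primrec K) (hl : Primrec l) (hj : Primrec j) :
    Primrec (fun a => lab (K a) (l a) (j a)) :=
  p_add (p_add (Primrec.const _) (p_mul hl hK)) hj

theorem p_al {tb : List (List ℕ)} {l : α → ℕ} (hl : Primrec l) :
    Primrec (fun a => al tb (l a)) :=
  (Primrec.list_getD ([] : List ℕ)).comp (Primrec.const tb) hl

theorem p_co {cb : List ℕ} {l : α → ℕ} (hl : Primrec l) :
    Primrec (fun a => co cb (l a)) :=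
  (Primrec.list_getD 0).comp (Primrec.const cb) hl

theorem p_len {β : Type} [Primcodable β] {l : α → List β} (hl : Primrec l) :
    Primrec (fun a => (l a).length) := Primrec.list_length.comp hl

theorem p_cl {P : ℕ} {tb : List (List ℕ)} {K l n : α → ℕ} (hK : Primrec K) (hl : Primrec l)
    (hn : Primrec n) : Primrec (fun a => cl P (K a) tb (l a) (n a)) := by
  unfold cl
  apply Primrec.ite
  · apply PrimrecPred.and
    · exact Primrec.eq.comp (p_mod hn (p_be hK)) (Primrec.const _)
    · exact Primrec.nat_lt.comp (p_div hn (p_be hK)) (p_len (p_al hl))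
  · exact p_lab hK hl (p_div hn (p_be hK))
  · exact Primrec.const _

theorem p_cs {P : ℕ} {tb : List (List ℕ)} {K n : α → ℕ} {w0 : α → List ℕ} (hK : Primrec K)
    (hw : Primrec w0) (hn : Primrec n) : Primrec (fun a => cs P (K a) tb (w0 a) (n a)) := by
  unfold cs
  apply Primrec.ite
  · apply PrimrecPred.and
    · exact Primrec.eq.comp (p_mod hn (p_be hK)) (Primrec.const _)
    · apply PrimrecPred.and
      · exact Primrec.nat_le.comp (Primrec.const _) (p_div hn (p_be hK))
      · exact Primrec.nat_le.comp (p_div hn (p_be hK)) (p_len hw)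
  · exact p_lab hK (Primrec.const _) (p_div hn (p_be hK))
  · exact Primrec.const _

/-- maps over a range -/
theorem p_rmap {β : Type} [Primcodable β] {f : α → ℕ} {g : α → ℕ → β} (hf : Primrec f)
    (hg : Primrec (fun p : α × ℕ => g p.1 p.2)) : Primrec (fun a => (List.range (f a)).map (g a)) :=
  Primrec.list_map (Primrec.list_range.comp hf) hg.to₂

/-- flat maps over a range -/
theorem p_rflat {β : Type} [Primcodable β] {f : α → ℕ} {g : α → ℕ → List β} (hf : Primrec f)
    (hg : Primrec (fun p : α × ℕ => g p.1 p.2)) :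
    Primrec (fun a => (List.range (f a)).flatMap (g a)) :=
  Primrec.list_flatMap (Primrec.list_range.comp hf) hg.to₂

theorem p_scl {P : ℕ} {tb : List (List ℕ)} {K : α → ℕ} {w0 : α → List ℕ} (hK : Primrec K)
    (hw : Primrec w0) : Primrec (fun a => scl P (K a) tb (w0 a)) := by
  unfold scl
  apply p_rmap
  · exact p_sub (p_mul (p_add (p_len hw) (Primrec.const _)) (p_be hK)) (Primrec.const _)
  · have hK' : Primrec (fun p : α × ℕ => K p.1) := hK.comp Primrec.fst
    have hw' : Primrec (fun p : α × ℕ => w0 p.1) := hw.comp Primrec.fst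
    have hn : Primrec (fun p : α × ℕ => p.2 + 1) := p_add Primrec.snd (Primrec.const _)
    exact p_add (p_tau hK' (Primrec.const _)) (p_xx hK' hn (p_cs hK' hw' hn))

theorem p_Ln {P : ℕ} {tb : List (List ℕ)} {K l j : α → ℕ} (hK : Primrec K) (hl : Primrec l)
    (hj : Primrec j) : Primrec (fun a => Ln P (K a) tb (l a) (j a)) := by
  unfold Ln
  apply Primrec.ite
  · exact Primrec.nat_lt.comp (p_add hj (Primrec.const _)) (p_len (p_al hl))
  · exact Primrec.const _
  · exact p_add (p_sub (p_DD hK) (p_len (p_al hl))) (Primrec.const _)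

theorem p_row {P : ℕ} {tb : List (List ℕ)} {cb : List ℕ} {K l j : α → ℕ} (hK : Primrec K)
    (hl : Primrec l) (hj : Primrec j) : Primrec (fun a => row P (K a) tb cb (l a) (j a)) := by
  unfold row
  apply p_rmap
  · exact p_sub (p_CC hK) (p_Ln hK hl hj)
  · have hK' : Primrec (fun p : α × ℕ => K p.1) := hK.comp Primrec.fst
    have hl' : Primrec (fun p : α × ℕ => l p.1) := hl.comp Primrec.fst
    have hj' : Primrec (fun p : α × ℕ => j p.1) := hj.comp Primrec.fst
    have hn : Primrec (fun p : α × ℕ => p.2) := Primrec.snd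
    have hg : Primrec (fun p : α × ℕ => (al tb (l p.1)).getD (j p.1) 0) :=
      (Primrec.list_getD 0).comp (p_al hl') hj'
    exact p_sub (p_mul (p_be hK') (p_add (p_tau hK' (p_co hg)) (p_xx hK' hn (p_cl hK' hg hn))))
      (p_add (p_tau hK' (p_co hl')) (p_xx hK' (p_mul hj' (p_be hK')) (p_lab hK' hl' hj')))

theorem p_rowS {P : ℕ} {tb : List (List ℕ)} {cb : List ℕ} {K j : α → ℕ} {w0 : α → List ℕ}
    (hK : Primrec K) (hw : Primrec w0) (hj : Primrec j) :
    Primrec (fun a => rowS P (K a) tb cb (w0 a) (j a)) := by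
  unfold rowS
  apply p_rmap
  · exact p_sub (p_CC hK) (Primrec.const _)
  · have hK' : Primrec (fun p : α × ℕ => K p.1) := hK.comp Primrec.fst
    have hw' : Primrec (fun p : α × ℕ => w0 p.1) := hw.comp Primrec.fst
    have hj' : Primrec (fun p : α × ℕ => j p.1) := hj.comp Primrec.fst
    have hj1 : Primrec (fun p : α × ℕ => j p.1 + 1) := p_add hj' (Primrec.const _)
    have hn : Primrec (fun p : α × ℕ => p.2) := Primrec.snd
    have hg : Primrec (fun p : α × ℕ => (w0 p.1).getD (j p.1) 0) :=
      (Primrec.list_getD 0).comp hw' hj'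
    exact p_sub (p_mul (p_be hK') (p_add (p_tau hK' (p_co hg)) (p_xx hK' hn (p_cl hK' hg hn))))
      (p_add (p_tau hK' (Primrec.const _)) (p_xx hK' (p_mul hj1 (p_be hK'))
        (p_lab hK' (Primrec.const _) hj1)))

theorem p_Ql {P : ℕ} {tb : List (List ℕ)} {cb : List ℕ} {K : α → ℕ} {w0 : α → List ℕ}
    (hK : Primrec K) (hw : Primrec w0) : Primrec (fun a => Ql P (K a) tb cb (w0 a)) := by
  unfold Ql
  refine Primrec.list_cons.comp (Primrec.const _) ?_
  refine Primrec.list_append.comp ?_ (Primrec.list_append.comp ?_ ?_)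
  · have h : Primrec (fun p : α × ℕ => be P (K p.1) tb * p.2) :=
      p_mul (p_be (hK.comp Primrec.fst)) Primrec.snd
    exact Primrec.list_map (p_scl hK hw) h.to₂
  · apply p_rflat (Primrec.const _)
    apply p_rflat (p_len (p_al Primrec.snd))
    exact p_row (hK.comp (Primrec.fst.comp Primrec.fst)) (Primrec.snd.comp Primrec.fst) Primrec.snd
  · apply p_rflat (p_len hw)
    exact p_rowS (hK.comp Primrec.fst) (hw.comp Primrec.fst) Primrec.snd

theorem p_mem {l : α → List ℕ} {q : α → ℕ} (hl : Primrec l) (hq : Primrec q) :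
    Primrec (fun a => decide (q a ∈ l a)) := by
  have h : PrimrecPred (fun a => (l a).idxOf (q a) < (l a).length) :=
    Primrec.nat_lt.comp (Primrec.list_idxOf.comp hq hl) (p_len hl)
  have h2 := h.decide
  refine h2.of_eq fun a => ?_
  simp only [List.idxOf_lt_length_iff]

theorem p_uu {P : ℕ} {tb : List (List ℕ)} {cb : List ℕ} {K : α → ℕ} {w0 : α → List ℕ}
    (hK : Primrec K) (hw : Primrec w0) : Primrec (fun a => uu P (K a) tb cb (w0 a)) := by
  unfold uu
  apply p_rmap (p_add (p_kap hK) (Primrec.const _))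
  exact p_mem (p_Ql (hK.comp Primrec.fst) (hw.comp Primrec.fst)) Primrec.snd

theorem p_encm {k : α → ℕ} {s : α → List Bool} (hk : Primrec k) (hs : Primrec s) :
    Primrec (fun a => encm (k a) (s a)) := by
  unfold encm
  refine Primrec.list_drop.comp hk ?_
  have h : Primrec (fun p : α × Bool => List.replicate (k p.1) 0 ++ [cd p.2]) := by
    refine Primrec.list_append.comp (p_replicate 0 (hk.comp Primrec.fst)) ?_
    refine Primrec.list_cons.comp ?_ (Primrec.const [])
    exact (Primrec.dom_bool cd).comp Primrec.snd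
  exact Primrec.list_flatMap hs h.to₂

theorem p_gI (i : Fin 4) {k : α → ℕ} (hk : Primrec k) : Primrec (fun a => gI (k a) i) := by
  have h1 : ∀ c : ℕ, Primrec (fun a => c :: List.replicate (k a) 0) := fun c =>
    Primrec.list_cons.comp (Primrec.const c) (p_replicate 0 hk)
  fin_cases i
  · exact h1 1
  · exact h1 2
  · exact h1 1
  · exact h1 2

theorem p_hI (i : Fin 4) {k : α → ℕ} {u : α → List Bool} (hk : Primrec k) (hu : Primrec u) :
    Primrec (fun a => hI (k a) (u a) i) := by
  fin_cases i
  · exact Primrec.const [0]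
  · exact Primrec.const [0]
  · exact Primrec.const [1]
  · exact p_encm hk hu

end prim

/-
PROOF. For fixed P, K0, tb, cb, A, a, m, f everything is primitive recursive in n: b1, be, kk, DD, CC, tau, xx, mu, kap, lab are polynomials (with one
truncated subtraction), al tb and co cb are fixed list look-ups (Primrec.list_getD), cl, cs are if-then-else; List.range, map, flatMap, append, decide membership
(e.g. through list_findIdx / idxOf < length, or foldr) are primitive recursive (Primrec.list_range, list_map, list_flatMap, list_append,...). The value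
is a pair of functions Fin m → List ℕ: Primrec.fin_curry / fin_curry₁ reduce to each i : Fin m separately, where gI, hI at the fixed index f i are one
of the four entries. (Suggestion: prove Primrec for all functions of (n, l, j, ...) needed; List.replicate k 0 = (List.range k).map (fun _ => 0).)
-/

/-- TARGET: the instance is computable -/
theorem stF (P K0 : ℕ) (tb : List (List ℕ)) (cb : List ℕ) (A a : ℕ) (m : ℕ) (f : Fin m → Fin 4) :
    Computable (fun n : ℕ =>
      (((fun i => gI (kk P (K0 + n) tb) (f i)),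
        (fun i => hI (kk P (K0 + n) tb) (uu P (K0 + n) tb cb (A :: List.replicate n a)) (f i))) :
        (Fin m → List ℕ) × (Fin m → List ℕ))) := by
  apply Primrec.to_comp
  have hK : Primrec (fun n : ℕ => K0 + n) := p_add (Primrec.const _) Primrec.id
  have hk := p_kk (P := P) (tb := tb) hK
  have hw : Primrec (fun n : ℕ => A :: List.replicate n a) :=
    Primrec.list_cons.comp (Primrec.const _) (p_replicate a Primrec.id)
  have hu := p_uu (P := P) (tb := tb) (cb := cb) hK hw
  apply Primrec.pair
  · apply Primrec.fin_curry.2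
    apply Primrec₂.swap
    apply Primrec.fin_curry₁.2
    intro i
    change Primrec (fun n : ℕ => gI (kk P (K0 + n) tb) (f i))
    exact p_gI (f i) hk
  · apply Primrec.fin_curry.2
    apply Primrec₂.swap
    apply Primrec.fin_curry₁.2
    intro i
    change Primrec (fun n : ℕ =>
      hI (kk P (K0 + n) tb) (uu P (K0 + n) tb cb (A :: List.replicate n a)) (f i))
    exact p_hI (f i) hk hu

end Pool.Agent.Helper231_PCP
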