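import Mathlib
import Pool.Agent.Helper231_PCP.Defs
import Pool.Agent.Helper231_PCP.Defs2
import Pool.Agent.Helper231_PCP.A1
import Pool.Agent.Helper231_PCP.A2
import Pool.Agent.Helper231_PCP.B
import Pool.Agent.Helper231_PCP.C
import Pool.Agent.Helper231_PCP.D1
import Pool.Agent.Helper231_PCP.D2
import Pool.Agent.Helper231_PCP.E
import Pool.Agent.Helper231_PCP.F

set_option autoImplicit false

/-! # `PCP(m)` is undecidable for `m ≥ 4` -/

namespace Pool.Agent.Helper231_PCP

/-- the four pairs simulate the binary tag system -/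
theorem stA (k kap : ℕ) (u : List Bool) (hk : 2 ≤ k) (hlen : u.length = kap + 1)
    (h0 : u.getD 0 false = true) (hdvd : k ∣ kap) (hle : k ≤ kap)
    (hA : ∀ q, 0 < q → k ∣ q → u.getD q false = false) :
    PCPpos (gI k, hI k u) ↔ ∃ n, (tstep (k + 1) u)^[n] (u.drop (k + 1)) = [] := by
  have hu : u ≠ [] := by
    intro h
    rw [h] at hlen
    simp at hlen
  rw [stA1 k u hu, stA2 k kap u hk hlen h0 hdvd hle hA]

instance {Q : Type} [Finite Q] (P : ℕ) : Finite (Lt Q P) := by
  refine Finite.of_injective (β := Fin 5 × Option Q × Option (Fin P)) (fun l => match l with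
    | .x => (0, none, none)
    | .A o => (1, o, none)
    | .a o => (2, o, none)
    | .B q i => (3, some q, some i)
    | .b q i => (4, some q, some i)) ?_
  intro x y h
  cases x <;> cases y <;> simp_all

/-- colours of the letters -/
def colL {Q : Type} {P : ℕ} : Lt Q P → ℕ
  | .x => 0
  | .A _ => 0
  | .a _ => 0
  | .B _ _ => 1
  | .b _ _ => 1

/-- tag systems simulate one-register machines -/
theorem stD {Q : Type} [Finite Q] (M : OM Q) (hP : 2 ≤ M.P) (hm : ∀ q r, 0 < M.mu q r) (q0 : Q) :
    ∃ (tb : List (List ℕ)) (cb : List ℕ) (A a : ℕ), Adm tb cb ∧ A < tb.length ∧ a < tb.length ∧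
      co cb A = 0 ∧ co cb a = 0 ∧ ∀ n,
        (M.Halts (some q0) n → Dies M.P tb (A :: List.replicate n a)) ∧
        (¬ M.Halts (some q0) n → Lives M.P tb (A :: List.replicate n a)) := by
  obtain ⟨tb, cb, code, h1, h2, h3, h4⟩ := stD2 M.P (alp M) colL
    (by intro x; cases x <;> simp [colL])
    (by
      intro x y hy
      match x, hy with
      | .A (some q), hy =>
        simp only [alp, List.mem_ofFn] at hy
        obtain ⟨i, rfl⟩ := hy
        rfl
      | .a (some q), hy =>
        simp only [alp, List.mem_ofFn] at hy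
        obtain ⟨i, rfl⟩ := hy
        rfl
      | .B q i, hy =>
        simp only [alp, List.mem_append, List.mem_cons, List.mem_replicate] at hy
        rcases hy with ⟨_, rfl⟩ | rfl | ⟨_, rfl⟩ <;> rfl
      | .b q i, hy =>
        simp only [alp, List.mem_replicate] at hy
        rw [hy.2]
        rfl)
  refine ⟨tb, cb, code (.A (some q0)), code (.a (some q0)), h1, h2 _, h2 _, h3 _, h3 _, ?_⟩
  intro n
  obtain ⟨h5, h6⟩ := stD1 M hP hm q0 n
  obtain ⟨h7, h8⟩ := h4 (Lt.A (some q0) :: List.replicate n (Lt.a (some q0)))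
  rw [List.map_cons, List.map_replicate] at h7 h8
  exact ⟨fun h => h7 (h5 h), fun h => h8 (h6 h)⟩

/-- repeating pairs -/
theorem stG {m : ℕ} (f : Fin m → Fin 4) (hf : Function.Surjective f)
    (I : (Fin 4 → List ℕ) × (Fin 4 → List ℕ)) :
    PCPpos ((fun i => I.1 (f i)), (fun i => I.2 (f i))) ↔ PCPpos I := by
  have key : ∀ (h : Fin 4 → List ℕ) (w : List (Fin m)),
      ext (fun i => h (f i)) w = ext h (w.map f) := by
    intro h w
    unfold ext
    rw [List.flatMap_map]
  constructor
  · rintro ⟨w, hw, h⟩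
    refine ⟨w.map f, by simpa using hw, ?_⟩
    rw [← key, ← key]
    exact h
  · rintro ⟨w, hw, h⟩
    obtain ⟨g, hg⟩ := hf.hasRightInverse
    refine ⟨w.map g, by simpa using hw, ?_⟩
    change ext (fun i => I.1 (f i)) (w.map g) = ext (fun i => I.2 (f i)) (w.map g)
    rw [key, key, List.map_map]
    have : f ∘ g = id := funext hg
    rw [this, List.map_id]
    exact h

/-- a computable family of instances of `PCP(m)` with noncomputable set of positive instances -/
theorem family (m : ℕ) (hm : 4 ≤ m) : ∃ (J : ℕ → (Fin m → List ℕ) × (Fin m → List ℕ)),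
    Computable J ∧ ¬ ComputablePred (fun n => PCPpos (J n)) ∧
    ∀ n i, (J n).1 i ≠ [] ∧ (J n).2 i ≠ [] ∧ (∀ x ∈ (J n).1 i, x ≤ 2) ∧ (∀ x ∈ (J n).2 i, x ≤ 2) := by
  obtain ⟨Q, hQ, M, q0, N, hP, hmu, hN, hund⟩ := stE
  obtain ⟨tb, cb, A, a, hadm, hAl, hal, hcA, hca, hsim⟩ := stD M hP hmu q0
  -- bound for the productions
  obtain ⟨K1, hK1⟩ : ∃ K1, ∀ w ∈ tb, w.length ≤ K1 := by
    refine ⟨(tb.map List.length).sum, fun w hw => ?_⟩
    exact List.single_le_sum (by simp) _ (List.mem_map_of_mem hw)
  let f : Fin m → Fin 4 := fun i => if h : (i : ℕ) < 4 then ⟨i, h⟩ else 0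
  have hf : Function.Surjective f := by
    intro j
    refine ⟨⟨j, by omega⟩, ?_⟩
    simp [f]
  let J : ℕ → (Fin m → List ℕ) × (Fin m → List ℕ) := fun n =>
    ((fun i => gI (kk M.P (K1 + 2 + n) tb) (f i)),
     (fun i => hI (kk M.P (K1 + 2 + n) tb)
        (uu M.P (K1 + 2 + n) tb cb (A :: List.replicate n a)) (f i)))
  have hJ : Computable J := stF M.P (K1 + 2) tb cb A a m f
  have key : ∀ n, PCPpos (J n) ↔ M.Halts (some q0) n := by
    intro n
    have hw : (A :: List.replicate n a) ≠ [] := by simp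
    have hK : ∀ w ∈ tb, w.length ≤ K1 + 2 + n := fun w hw => (hK1 w hw).trans (by omega)
    have hwK : (A :: List.replicate n a).length < K1 + 2 + n := by simp; omega
    have hwr : ∀ l ∈ (A :: List.replicate n a), co cb l = 0 := by
      intro l hl
      rcases List.mem_cons.1 hl with rfl | hl
      · exact hcA
      · rw [List.eq_of_mem_replicate hl]; exact hca
    obtain ⟨c1, c2, c3, c4, c5, c6, c7⟩ := stC0 hP hadm hK hwK hwr
    have e1 := stG f hf (gI (kk M.P (K1 + 2 + n) tb), hI (kk M.P (K1 + 2 + n) tb)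
      (uu M.P (K1 + 2 + n) tb cb (A :: List.replicate n a)))
    have e2 := stA _ _ _ c1 c3 c4 c5 c6 c7
    have e3 := stB _ _ _ c1 c3 c4 c5 c6 c7
    rw [← c2] at e3
    have e4 := stC1 hP hadm hK hw hwK (cb := cb)
    have e5 := stC2 hP hadm hK hw hwK (cb := cb)
    refine e1.trans (e2.trans ?_)
    rw [← c2]
    rw [e3]
    constructor
    · intro h
      by_contra hh
      exact e5 ((hsim n).2 hh) h
    · intro h
      exact e4 ((hsim n).1 h)
  refine ⟨fun n => J (N n), hJ.comp hN, ?_, ?_⟩
  · intro hc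
    apply hund
    exact hc.of_eq (fun n => key (N n))
  · intro n i
    have hne : ∀ (k : ℕ) (j : Fin 4), gI k j ≠ [] ∧ ∀ x ∈ gI k j, x ≤ 2 := by
      intro k j
      fin_cases j <;> simp [gI]
    have hcd : ∀ x, cd x ≤ 2 := by intro x; cases x <;> simp [cd]
    have hne2 : ∀ (k : ℕ) (u : List Bool) (j : Fin 4), u ≠ [] →
        hI k u j ≠ [] ∧ ∀ x ∈ hI k u j, x ≤ 2 := by
      intro k u j hu
      have he : encm k u ≠ [] ∧ ∀ x ∈ encm k u, x ≤ 2 := by
        constructor
        · obtain ⟨x, v, rfl⟩ := List.exists_cons_of_ne_nil hu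
          unfold encm
          intro h
          rw [List.drop_eq_nil_iff] at h
          simp at h
        · intro x hx
          unfold encm at hx
          have := List.mem_of_mem_drop hx
          rw [List.mem_flatMap] at this
          obtain ⟨y, _, hy⟩ := this
          rw [List.mem_append, List.mem_replicate, List.mem_singleton] at hy
          rcases hy with ⟨_, rfl⟩ | rfl
          · omega
          · exact hcd y
      fin_cases j
      · simp [hI]
      · simp [hI]
      · simp [hI]
      · exact he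
    have hu : uu M.P (K1 + 2 + N n) tb cb (A :: List.replicate (N n) a) ≠ [] := by
      intro h
      have := congrArg List.length h
      simp [uu] at this
    exact ⟨(hne _ _).1, (hne2 _ _ _ hu).1, (hne _ _).2, (hne2 _ _ _ hu).2⟩

/-- `PCP(m)` is undecidable for `m ≥ 4`. -/
theorem main (m : ℕ) (hm : 4 ≤ m) :
    ¬ ComputablePred (fun I : (Fin m → List ℕ) × (Fin m → List ℕ) => PCPpos I) := by
  intro hdec
  obtain ⟨J, hJ, hund, _⟩ := family m hm
  apply hund
  have : ManyOneReducible (fun n => PCPpos (J n))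
      (fun I : (Fin m → List ℕ) × (Fin m → List ℕ) => PCPpos I) := ⟨J, hJ, fun n => Iff.rfl⟩
  exact ComputablePred.computable_of_manyOneReducible this hdec

end Pool.Agent.Helper231_PCP
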